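import Mathlib
import Pool.Agent.Work.MP_40574a_nt.Mertens

/-! # Module Dens: the cubic polynomial `(m-2)(m+4)(m+10)` and its density for primes `m`

All lemmas elementary. `card_Rp_le`: as `Count.R_card_le` in `../Count.lean` (copy). `card_Rp_lt`: by hand for
`q = 2, 3, 5` (`Rp 2 = ∅`, `Rp 3 = {2}`, `Rp 5 = {1,2}`: `decide`), for `q ≥ 7` from `card_Rp_le`. -/

namespace Pool.Agent.Work.MP_40574a_nt.PA

open Finset

noncomputable section

/-- `(m-2)(m+4)(m+10)` as an integer -/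
def P3 (m : ℕ) : ℤ := ((m : ℤ) - 2) * (m + 4) * (m + 10)

/-- divisibility of `P3 m` by `q` -/
def dp (q m : ℕ) : Prop := (q : ℤ) ∣ P3 m

instance (q m : ℕ) : Decidable (dp q m) := by unfold dp; infer_instance

/-- reduced residues `r` mod `q` with `q ∣ P3 r` -/
def Rp (q : ℕ) : Finset ℕ := (range q).filter (fun r => r.Coprime q ∧ dp q r)

/-- the density of `q ∣ P3 m` among the `m` coprime to `q` -/
def gp (q : ℕ) : ℝ := ((Rp q).card : ℝ) / q.totient

lemma dp_per (q m : ℕ) : dp q m ↔ dp q (m % q) := by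
  unfold dp
  have h : P3 m ≡ P3 (m % q) [ZMOD q] := by
    unfold P3
    have h1 : (m : ℤ) ≡ ((m % q : ℕ) : ℤ) [ZMOD q] := by
      push_cast
      exact (Int.mod_modEq _ _).symm
    gcongr
  exact Int.ModEq.dvd_iff h

lemma card_Rp_le {q : ℕ} (hq : q.Prime) : (Rp q).card ≤ 3 := by
  have hsub : Rp q ⊆ ({2, -4, -10} : Finset ℤ).image (fun c => (c % (q : ℤ)).toNat) := by
    intro r hr
    obtain ⟨hr1, hr2⟩ := mem_filter.1 hr
    have hr1 := mem_range.1 hr1
    have hr2 := hr2.2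
    have hqp : Prime (q : ℤ) := Nat.prime_iff_prime_int.1 hq
    have key : ∀ c : ℤ, (q : ℤ) ∣ (r : ℤ) - c → (c % (q : ℤ)).toNat = r := by
      intro c hc
      have h1 : (r : ℤ) % q = c % q := ((Int.modEq_iff_dvd).2 hc).symm
      rw [← h1, Int.emod_eq_of_lt (by positivity) (by exact_mod_cast hr1)]
      simp
    unfold dp P3 at hr2
    rw [mem_image]
    rcases hqp.dvd_or_dvd hr2 with h | h
    · rcases hqp.dvd_or_dvd h with h | h
      · exact ⟨2, by simp, key 2 h⟩
      · exact ⟨-4, by simp, key (-4) (by simpa using h)⟩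
    · exact ⟨-10, by simp, key (-10) (by simpa using h)⟩
  calc (Rp q).card ≤ _ := card_le_card hsub
    _ ≤ _ := card_image_le
    _ ≤ 3 := by decide

lemma card_Rp_lt {q : ℕ} (hq : q.Prime) : (Rp q).card < q.totient := by
  by_cases h : q < 7
  · have h2 := hq.two_le
    interval_cases q
    · decide +kernel
    · decide +kernel
    · exact absurd hq (by norm_num)
    · decide +kernel
    · exact absurd hq (by norm_num)
  · have := card_Rp_le hq
    rw [Nat.totient_prime hq]
    omega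

lemma gp_nonneg (q : ℕ) : 0 ≤ gp q := by
  unfold gp; positivity

lemma gp_lt_one {q : ℕ} (hq : q.Prime) : gp q < 1 := by
  unfold gp
  have h0 : (0 : ℝ) < q.totient := by exact_mod_cast Nat.totient_pos.2 hq.pos
  rw [div_lt_one h0]
  exact_mod_cast card_Rp_lt hq

lemma gp_le {q : ℕ} (hq : q.Prime) : gp q ≤ 3 * (1 / q) + 6 / (q : ℝ) ^ 2 := by
  unfold gp
  have h1 : ((Rp q).card : ℝ) ≤ 3 := by exact_mod_cast card_Rp_le hq
  have h2 : (2 : ℝ) ≤ q := by exact_mod_cast hq.two_le
  have h3 : (q.totient : ℝ) = q - 1 := by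
    rw [Nat.totient_prime hq, Nat.cast_sub hq.one_le, Nat.cast_one]
  have h4 : (0 : ℝ) < q - 1 := by linarith
  have h5 : (0 : ℝ) < q := by linarith
  rw [h3]
  calc ((Rp q).card : ℝ) / (q - 1) ≤ 3 / (q - 1) := by gcongr
    _ ≤ 3 * (1 / q) + 6 / (q : ℝ) ^ 2 := by
      rw [mul_one_div, div_add_div _ _ h5.ne' (by positivity), div_le_div_iff₀ h4 (by positivity)]
      nlinarith [mul_pos h5 h5, mul_nonneg h5.le (mul_nonneg h5.le (sub_nonneg.2 h2))]

end

end Pool.Agent.Work.MP_40574a_nt.PA
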