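import Mathlib
import Pool.Agent.Work.MP_40574a_nt.PA.Dens
import Pool.Agent.Work.MP_40574a_nt.BrunHooley
import Pool.Agent.Work.MP_40574a_nt.Mertens

/-! # Module Params3: density sums and products for `gp` (dimension three)

As in `../Params.lean` (dimension four), from `gp_le`, `gp_lt_one`, `Mertens.mertens_second`. `∑ 6/q²` over
`q > a` is `≤ 12/a`. `block_sum3`: `3 log(5/3) ≤ 1.533`. `V3_ratio`: `V gp (PB 1 z') =
V gp (PB 1 z) / V gp (PB z' z)` and `V gp (PB z' z) ≥ exp(-(∑ gp + 2 ∑ gp²))`. -/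

namespace Pool.Agent.Work.MP_40574a_nt.PA

open Finset BrunHooley Mertens

noncomputable section

lemma Params3_log_five_thirds : Real.log (5 / 3) ≤ 0.511 := by
  rw [Real.log_le_iff_le_exp (by norm_num)]
  refine le_trans ?_ (Real.sum_le_exp_of_nonneg (by norm_num : (0 : ℝ) ≤ 0.511) 7)
  norm_num [Finset.sum_range_succ, Nat.factorial]

lemma Params3_prime {a b : ℝ} : ∀ q ∈ PB a b, q.Prime := fun _ hq => (mem_filter.1 hq).2

lemma Params3_inv_sq {a b : ℝ} (ha : 1 ≤ a) (hab : a ≤ b) :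
    ∑ q ∈ PB a b, 1 / (q : ℝ) ^ 2 ≤ 2 / a := by
  have hk : ⌊a⌋₊ ≠ 0 := by
    have : 1 ≤ ⌊a⌋₊ := by rwa [Nat.one_le_floor_iff]
    omega
  have hk1 : (1 : ℝ) ≤ ⌊a⌋₊ := by exact_mod_cast Nat.one_le_iff_ne_zero.2 hk
  have h1 : ∑ q ∈ PB a b, 1 / (q : ℝ) ^ 2 ≤ ∑ q ∈ Ioc ⌊a⌋₊ ⌊b⌋₊, ((q : ℝ) ^ 2)⁻¹ := by
    unfold PB
    simp only [one_div]
    exact sum_le_sum_of_subset_of_nonneg (filter_subset _ _) fun i _ _ => by positivity
  have h2 := sum_Ioc_inv_sq_le_sub (α := ℝ) hk (Nat.floor_le_floor hab)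
  have h3 : (⌊a⌋₊ : ℝ)⁻¹ ≤ 2 / a := by
    rw [inv_eq_one_div, div_le_div_iff₀ (by linarith) (by linarith)]
    have := Nat.lt_floor_add_one a
    linarith
  have h4 : (0 : ℝ) ≤ (⌊b⌋₊ : ℝ)⁻¹ := by positivity
  linarith

lemma Params3_sum_le {a b : ℝ} (ha : 1 ≤ a) (hab : a ≤ b) :
    ∑ q ∈ PB a b, gp q ≤ 3 * ∑ q ∈ PB a b, (1 : ℝ) / q + 12 / a := by
  have h1 : ∑ q ∈ PB a b, gp q ≤ ∑ q ∈ PB a b, (3 * (1 / (q : ℝ)) + 6 * (1 / (q : ℝ) ^ 2)) := by
    refine sum_le_sum fun q hq => ?_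
    have := gp_le (Params3_prime q hq)
    rw [mul_one_div 6]
    exact this
  rw [sum_add_distrib, ← mul_sum, ← mul_sum] at h1
  have h2 := Params3_inv_sq ha hab
  have h3 : 12 / a = 6 * (2 / a) := by ring
  rw [h3]
  linarith

lemma Params3_gp_le9 {q : ℕ} (hq : q.Prime) : gp q ≤ 9 / (q : ℝ) := by
  have h1 := gp_le hq
  have h2 : (1 : ℝ) ≤ q := by exact_mod_cast hq.one_lt.le
  have h3 : 6 / (q : ℝ) ^ 2 ≤ 6 / (q : ℝ) := by
    apply div_le_div_of_nonneg_left (by norm_num) (by linarith)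
    nlinarith
  have h4 : 9 / (q : ℝ) = 3 * (1 / (q : ℝ)) + 6 / (q : ℝ) := by ring
  linarith

lemma Params3_sq_le {a b : ℝ} (ha : 1 ≤ a) (hab : a ≤ b) :
    ∑ q ∈ PB a b, gp q ^ 2 ≤ 162 / a := by
  have h1 : ∑ q ∈ PB a b, gp q ^ 2 ≤ ∑ q ∈ PB a b, 81 * (1 / (q : ℝ) ^ 2) := by
    refine sum_le_sum fun q hq => ?_
    have h2 := Params3_gp_le9 (Params3_prime q hq)
    have h3 := gp_nonneg q
    calc gp q ^ 2 ≤ (9 / (q : ℝ)) ^ 2 := by gcongr
      _ = _ := by ring
  rw [← mul_sum] at h1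
  have h2 := Params3_inv_sq ha hab
  have h3 : 162 / a = 81 * (2 / a) := by ring
  rw [h3]
  linarith

/-- `1 - x ≥ exp (-x - 2x²)` for `0 ≤ x ≤ 1/2`. -/
lemma Params3_exp_le {x : ℝ} (hx : 0 ≤ x) (hx1 : x ≤ 1 / 2) :
    Real.exp (-(x + 2 * x ^ 2)) ≤ 1 - x := by
  have hpos : 0 < 1 - x := by linarith
  rw [← Real.le_log_iff_exp_le hpos]
  have h1 := Real.one_sub_inv_le_log_of_pos hpos
  have h2 : (1 - x)⁻¹ ≤ 1 + x + 2 * x ^ 2 := by
    rw [inv_le_comm₀ hpos (by positivity)]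
    rw [inv_le_iff_one_le_mul₀ (by positivity)]
    nlinarith [mul_nonneg hx hx, mul_nonneg (mul_nonneg hx hx) (by linarith : 0 ≤ 1 - 2 * x)]
  linarith

lemma Params3_V_ge {s : Finset ℕ} (hs : ∀ q ∈ s, q.Prime ∧ 18 ≤ q) :
    Real.exp (-(∑ q ∈ s, gp q + 2 * ∑ q ∈ s, gp q ^ 2)) ≤ V gp s := by
  unfold V
  have : -(∑ q ∈ s, gp q + 2 * ∑ q ∈ s, gp q ^ 2) = ∑ q ∈ s, (-(gp q + 2 * gp q ^ 2)) := by
    rw [sum_neg_distrib, sum_add_distrib, mul_sum]
  rw [this, Real.exp_sum]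
  refine prod_le_prod (fun q _ => (Real.exp_pos _).le) fun q hq => ?_
  refine Params3_exp_le (gp_nonneg q) ((Params3_gp_le9 (hs q hq).1).trans ?_)
  have : (18 : ℝ) ≤ q := by exact_mod_cast (hs q hq).2
  rw [div_le_div_iff₀ (by linarith) (by norm_num)]
  linarith

/-- lower bound of the product over a block, with all errors explicit -/
lemma Params3_V_block {C : ℝ} (h : ∀ a b : ℝ, 2 ≤ a → a ≤ b →
      ∑ p ∈ PB a b, (1 : ℝ) / p ≤ Real.log (Real.log b / Real.log a) + C / Real.log a)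
    {a b : ℝ} (ha : 18 ≤ a) (hab : a ≤ b) :
    (Real.log a / Real.log b) ^ 3 * Real.exp (-(3 * (C / Real.log a) + 336 / a)) ≤
      V gp (PB a b) := by
  have hla : 0 < Real.log a := Real.log_pos (by linarith)
  have hlb : 0 < Real.log b := Real.log_pos (by linarith)
  have hmem : ∀ q ∈ PB a b, q.Prime ∧ a < q := fun q hq =>
    ⟨Params3_prime q hq, ((mem_PB (by linarith) (by linarith)).1 hq).2.1⟩
  refine le_trans ?_ (Params3_V_ge fun q hq => ⟨(hmem q hq).1, ?_⟩)
  · have h1 := Params3_sum_le (by linarith : 1 ≤ a) hab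
    have h2 := h a b (by linarith) hab
    have h3 := Params3_sq_le (by linarith : 1 ≤ a) hab
    have h7 : Real.exp (-(3 * Real.log (Real.log b / Real.log a))) =
        (Real.log a / Real.log b) ^ 3 := by
      have h8 : -(3 * Real.log (Real.log b / Real.log a)) =
          Real.log ((Real.log a / Real.log b) ^ 3) := by
        rw [Real.log_pow, ← inv_div (Real.log b) (Real.log a), Real.log_inv]
        push_cast
        ring
      rw [h8, Real.exp_log (by positivity)]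
    rw [← h7, ← Real.exp_add, Real.exp_le_exp]
    have h9 : 336 / a = 12 / a + 2 * (162 / a) := by ring
    rw [h9]
    linarith
  · have : (18 : ℝ) < q := by linarith [(hmem q hq).2]
    exact_mod_cast this.le

lemma block_sum3 : ∃ w0 : ℝ, 2 ≤ w0 ∧ ∀ w, w0 ≤ w → ∀ a b : ℝ, w ≤ a → a ≤ b →
    Real.log b ≤ (5 / 3) * Real.log a → ∑ q ∈ PB a b, gp q ≤ 1.54 := by
  obtain ⟨C, hC, h⟩ := mertens_second
  refine ⟨max 12000 (Real.exp (3000 * C)), (by norm_num : (2 : ℝ) ≤ 12000).trans (le_max_left _ _),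
    fun w hw a b ha hab hlog => ?_⟩
  have hw2 : 12000 ≤ w := (le_max_left _ _).trans hw
  have hw3 : Real.exp (3000 * C) ≤ w := (le_max_right _ _).trans hw
  have ha2 : 12000 ≤ a := hw2.trans ha
  have hla : 3000 * C ≤ Real.log a := by
    rw [Real.le_log_iff_exp_le (by linarith)]
    exact hw3.trans ha
  have hla0 : 0 < Real.log a := Real.log_pos (by linarith)
  have h1 := Params3_sum_le (by linarith : 1 ≤ a) hab
  have h2 := h a b (by linarith) hab
  have h3 : Real.log (Real.log b / Real.log a) ≤ 0.511 := by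
    refine le_trans (Real.log_le_log ?_ ?_) Params3_log_five_thirds
    · exact div_pos (Real.log_pos (by linarith)) hla0
    · rw [div_le_iff₀ hla0]; exact hlog
  have h4 : C / Real.log a ≤ 1 / 3000 := by
    rw [div_le_div_iff₀ hla0 (by norm_num)]
    linarith
  have h5 : 12 / a ≤ 1 / 1000 := by
    rw [div_le_div_iff₀ (by linarith) (by norm_num)]
    linarith
  norm_num at h3 h4 h5 ⊢
  linarith

lemma block_V3 : ∃ w0 : ℝ, 2 ≤ w0 ∧ ∀ w, w0 ≤ w → ∀ a b : ℝ, w ≤ a → a ≤ b →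
    ∑ q ∈ PB a b, gp q ≤ 1.54 → Real.exp (-1.55) ≤ V gp (PB a b) := by
  refine ⟨10000, by norm_num, fun w hw a b ha hab hsum => ?_⟩
  have hmem : ∀ q ∈ PB a b, q.Prime ∧ a < q := fun q hq =>
    ⟨Params3_prime q hq, ((mem_PB (by linarith) (by linarith)).1 hq).2.1⟩
  refine le_trans ?_ (Params3_V_ge fun q hq => ⟨(hmem q hq).1, ?_⟩)
  · rw [Real.exp_le_exp]
    have h1 : ∑ q ∈ PB a b, gp q ^ 2 ≤ (9 / 10000) * ∑ q ∈ PB a b, gp q := by
      rw [mul_sum]
      refine sum_le_sum fun q hq => ?_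
      have h0 := gp_nonneg q
      have h2 : gp q ≤ 9 / 10000 := by
        refine (Params3_gp_le9 (hmem q hq).1).trans ?_
        have : (10000 : ℝ) ≤ q := by linarith [(hmem q hq).2]
        rw [div_le_div_iff₀ (by linarith) (by norm_num)]
        linarith
      nlinarith
    norm_num at hsum ⊢
    linarith
  · have : (18 : ℝ) < q := by linarith [(hmem q hq).2]
    exact_mod_cast this.le

lemma V3_pos {s : Finset ℕ} (hs : ∀ q ∈ s, q.Prime) : 0 < V gp s := by
  unfold V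
  exact prod_pos fun q hq => by linarith [gp_lt_one (hs q hq)]

lemma Params3_split {a b c : ℝ} (hab : a ≤ b) (hbc : b ≤ c) :
    V gp (PB a c) = V gp (PB a b) * V gp (PB b c) := by
  have h1 := Nat.floor_le_floor hab
  have h2 := Nat.floor_le_floor hbc
  have e : PB a c = PB a b ∪ PB b c := by
    ext n
    simp only [PB, mem_filter, mem_union, mem_Ioc]
    constructor
    · rintro ⟨⟨h3, h4⟩, h5⟩
      by_cases h6 : n ≤ ⌊b⌋₊
      · exact Or.inl ⟨⟨h3, h6⟩, h5⟩
      · exact Or.inr ⟨⟨by omega, h4⟩, h5⟩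
    · rintro (⟨⟨h3, h4⟩, h5⟩ | ⟨⟨h3, h4⟩, h5⟩)
      · exact ⟨⟨h3, by omega⟩, h5⟩
      · exact ⟨⟨by omega, h4⟩, h5⟩
  unfold V
  rw [e, prod_union]
  rw [disjoint_left]
  intro n hn hn'
  simp only [PB, mem_filter, mem_Ioc] at hn hn'
  omega

lemma V3_lower : ∃ c : ℝ, 0 < c ∧ ∀ z : ℝ, 2 ≤ z → c / (Real.log z) ^ 3 ≤ V gp (PB 1 z) := by
  obtain ⟨C, hC, h⟩ := mertens_second
  have hV : 0 < V gp (PB 1 18) := V3_pos Params3_prime
  have hl18 : 0 < Real.log 18 := Real.log_pos (by norm_num)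
  have hl2 : 0 < Real.log 2 := Real.log_pos (by norm_num)
  set E := Real.exp (-(3 * (C / Real.log 18) + 336 / 18)) with hE
  have hE0 : 0 < E := Real.exp_pos _
  refine ⟨V gp (PB 1 18) * min ((Real.log 2) ^ 3) ((Real.log 18) ^ 3 * E), by positivity,
    fun z hz => ?_⟩
  have hlz : 0 < Real.log z := Real.log_pos (by linarith)
  rcases le_total z 18 with h1 | h1
  · have h2 := Params3_split (by linarith : (1 : ℝ) ≤ z) h1
    have h3 : V gp (PB z 18) ≤ 1 := by
      unfold V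
      exact prod_le_one (fun q hq => by linarith [gp_lt_one (Params3_prime q hq)])
        fun q hq => by linarith [gp_nonneg q]
    have h4 : 0 < V gp (PB 1 z) := V3_pos Params3_prime
    have h5 : V gp (PB 1 18) ≤ V gp (PB 1 z) := by
      rw [h2]
      nlinarith
    have h6 : min ((Real.log 2) ^ 3) ((Real.log 18) ^ 3 * E) / (Real.log z) ^ 3 ≤ 1 := by
      rw [div_le_one (by positivity)]
      refine (min_le_left _ _).trans ?_
      exact pow_le_pow_left₀ hl2.le (Real.log_le_log (by norm_num) hz) 3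
    calc V gp (PB 1 18) * min ((Real.log 2) ^ 3) ((Real.log 18) ^ 3 * E) / (Real.log z) ^ 3
        = V gp (PB 1 18) * (min ((Real.log 2) ^ 3) ((Real.log 18) ^ 3 * E) / (Real.log z) ^ 3) := by
          ring
      _ ≤ V gp (PB 1 18) * 1 := by gcongr
      _ ≤ _ := by linarith
  · rw [Params3_split (by norm_num : (1 : ℝ) ≤ 18) h1]
    have h2 := Params3_V_block h (le_refl 18) h1
    calc V gp (PB 1 18) * min ((Real.log 2) ^ 3) ((Real.log 18) ^ 3 * E) / (Real.log z) ^ 3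
        = V gp (PB 1 18) * (min ((Real.log 2) ^ 3) ((Real.log 18) ^ 3 * E) / (Real.log z) ^ 3) := by
          ring
      _ ≤ V gp (PB 1 18) * ((Real.log 18) ^ 3 * E / (Real.log z) ^ 3) := by
          gcongr
          exact min_le_right _ _
      _ = V gp (PB 1 18) * ((Real.log 18 / Real.log z) ^ 3 * E) := by
          rw [div_pow]
          ring
      _ ≤ _ := by gcongr

lemma V3_ratio {ε : ℝ} (hε : 0 < ε) : ∃ z0 : ℝ, 2 ≤ z0 ∧ ∀ z' z : ℝ, z0 ≤ z' → z' ≤ z →
    V gp (PB 1 z') ≤ (1 + ε) * (Real.log z / Real.log z') ^ 3 * V gp (PB 1 z) := by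
  obtain ⟨C, hC, h⟩ := mertens_second
  have hl : 0 < Real.log (1 + ε) := Real.log_pos (by linarith)
  refine ⟨max 18 (max (Real.exp (6 * C / Real.log (1 + ε))) (672 / Real.log (1 + ε))),
    (by norm_num : (2 : ℝ) ≤ 18).trans (le_max_left _ _), fun z' z hz' hz => ?_⟩
  have h1 : 18 ≤ z' := (le_max_left _ _).trans hz'
  have h2 : Real.exp (6 * C / Real.log (1 + ε)) ≤ z' :=
    (le_max_left _ _).trans ((le_max_right _ _).trans hz')
  have h3 : 672 / Real.log (1 + ε) ≤ z' :=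
    (le_max_right _ _).trans ((le_max_right _ _).trans hz')
  have hlz' : 0 < Real.log z' := Real.log_pos (by linarith)
  have hlz : 0 < Real.log z := Real.log_pos (by linarith)
  have h4 : 6 * C / Real.log (1 + ε) ≤ Real.log z' := by
    rw [Real.le_log_iff_exp_le (by linarith)]
    exact h2
  have h5 : 3 * (C / Real.log z') ≤ Real.log (1 + ε) / 2 := by
    rw [div_le_iff₀ hl] at h4
    rw [← mul_div_assoc, div_le_div_iff₀ hlz' (by norm_num)]
    nlinarith
  have h6 : 336 / z' ≤ Real.log (1 + ε) / 2 := by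
    rw [div_le_iff₀ hl] at h3
    rw [div_le_div_iff₀ (by linarith) (by norm_num)]
    nlinarith
  have h7 := Params3_V_block h h1 hz
  have h8 : (1 + ε)⁻¹ ≤ Real.exp (-(3 * (C / Real.log z') + 336 / z')) := by
    rw [← Real.exp_log (by positivity : 0 < (1 + ε)⁻¹), Real.exp_le_exp, Real.log_inv]
    linarith
  have h9 : 0 < V gp (PB 1 z') := V3_pos Params3_prime
  rw [Params3_split (by linarith : (1 : ℝ) ≤ z') hz]
  have h10 : (Real.log z' / Real.log z) ^ 3 * (1 + ε)⁻¹ ≤ V gp (PB z' z) :=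
    le_trans (by gcongr) h7
  calc V gp (PB 1 z') = (1 + ε) * (Real.log z / Real.log z') ^ 3 *
        (V gp (PB 1 z') * ((Real.log z' / Real.log z) ^ 3 * (1 + ε)⁻¹)) := by
        field_simp
    _ ≤ _ := by gcongr

/-- density sum with a linear weight over `(exp(a L), exp(b L)]` -/
lemma tier_sum {ε : ℝ} (hε : 0 < ε) {a b d : ℝ} (ha : 0 < a) (hab : a ≤ b) (hbd : b ≤ d) :
    ∃ L0 : ℝ, 1 ≤ L0 ∧ ∀ L : ℝ, L0 ≤ L →
    ∑ q ∈ PB (Real.exp (a * L)) (Real.exp (b * L)), gp q * (1 - Real.log q / (d * L)) ≤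
      3 * (Real.log (b / a) - (b - a) / d) + ε := by
  obtain ⟨C, hC, h⟩ := mertens_second
  obtain ⟨C1, hC1, h1⟩ := sum_log_bounds
  have hb : 0 < b := by linarith
  have hd : 0 < d := by linarith
  set K := 3 * C / a + 3 * C1 / d + 12 / a with hK
  have hK0 : 0 < K := by positivity
  refine ⟨max 1 (max (1 / a) (K / ε)), le_max_left _ _, fun L hL => ?_⟩
  have hL1 : 1 ≤ L := (le_max_left _ _).trans hL
  have hL2 : 1 / a ≤ L := (le_max_left _ _).trans ((le_max_right _ _).trans hL)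
  have hL3 : K / ε ≤ L := (le_max_right _ _).trans ((le_max_right _ _).trans hL)
  have hL0 : 0 < L := by linarith
  have haL : 1 ≤ a * L := by
    rw [div_le_iff₀ ha] at hL2
    linarith
  have hKL : K / L ≤ ε := by
    rw [div_le_iff₀ hε] at hL3
    rw [div_le_iff₀ hL0]
    linarith
  have hexp : a * L + 1 ≤ Real.exp (a * L) := Real.add_one_le_exp _
  have hA2 : 2 ≤ Real.exp (a * L) := by linarith
  have hAB : Real.exp (a * L) ≤ Real.exp (b * L) := by
    rw [Real.exp_le_exp]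
    gcongr
  set A := Real.exp (a * L) with hA
  set B := Real.exp (b * L) with hB
  have hlA : Real.log A = a * L := Real.log_exp _
  have hlB : Real.log B = b * L := Real.log_exp _
  have h2 := h A B hA2 hAB
  have h3 := (abs_le.1 (h1 A B (by linarith) hAB)).1
  have h4 := Params3_inv_sq (by linarith : 1 ≤ A) hAB
  rw [hlA, hlB] at h2 h3
  have h5 : b * L / (a * L) = b / a := by
    rw [mul_div_mul_right _ _ hL0.ne']
  rw [h5] at h2
  have h6 : ∀ q ∈ PB A B, gp q * (1 - Real.log q / (d * L)) ≤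
      3 * (1 / (q : ℝ)) - 3 / (d * L) * (Real.log q / q) + 6 * (1 / (q : ℝ) ^ 2) := by
    intro q hq
    obtain ⟨hqp, hqA, hqB⟩ := (mem_PB (by linarith) (by linarith)).1 hq
    have hq0 : (0 : ℝ) < q := by linarith
    have hq1 : (1 : ℝ) ≤ q := by linarith
    have h7 : Real.log q ≤ b * L := by
      rw [← hlB]
      exact Real.log_le_log hq0 hqB
    have h8 : Real.log q / (d * L) ≤ 1 := by
      rw [div_le_one (by positivity)]
      refine h7.trans ?_
      gcongr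
    have h9 : 0 ≤ Real.log q / (d * L) := div_nonneg (Real.log_nonneg hq1) (by positivity)
    have h10 := gp_le hqp
    have h11 : gp q * (1 - Real.log q / (d * L)) ≤
        (3 * (1 / q) + 6 / (q : ℝ) ^ 2) * (1 - Real.log q / (d * L)) := by
      refine mul_le_mul_of_nonneg_right h10 (by linarith)
    refine h11.trans ?_
    have h12 : 0 ≤ 6 / (q : ℝ) ^ 2 * (Real.log q / (d * L)) := by positivity
    have h13 : (3 * (1 / (q : ℝ)) + 6 / (q : ℝ) ^ 2) * (1 - Real.log q / (d * L)) =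
        3 * (1 / (q : ℝ)) - 3 / (d * L) * (Real.log q / q) + 6 * (1 / (q : ℝ) ^ 2) -
          6 / (q : ℝ) ^ 2 * (Real.log q / (d * L)) := by
      field_simp
      ring
    rw [h13]
    linarith
  refine (sum_le_sum h6).trans ?_
  rw [sum_add_distrib, sum_sub_distrib, ← mul_sum, ← mul_sum, ← mul_sum]
  have h7 : 3 / (d * L) * ((b - a) * L - C1) ≤
      3 / (d * L) * ∑ q ∈ PB A B, Real.log q / q := by
    refine mul_le_mul_of_nonneg_left ?_ (by positivity)
    linarith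
  have h8 : 3 / (d * L) * ((b - a) * L - C1) = 3 * ((b - a) / d) - 3 * C1 / d / L := by
    field_simp
  have h9 : 2 / A ≤ 2 / (a * L) := by
    apply div_le_div_of_nonneg_left (by norm_num) (by positivity)
    linarith
  have h10 : K / L = 3 * (C / (a * L)) + 3 * C1 / d / L + 6 * (2 / (a * L)) := by
    rw [hK]
    field_simp
    ring
  linarith

end

end Pool.Agent.Work.MP_40574a_nt.PA
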