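import Mathlib
import Pool.Agent.Work.MP_40574a_nt.BrunHooley

/-! The Brun-Hooley sieve with weights and with the remainders kept inside the error sum. -/

namespace Pool.Agent.Work.MP_40574a_nt.PA

open Finset BrunHooley

noncomputable section

section family

variable {α : Type*} (A : Finset α) (w : α → ℝ) (dv : ℕ → α → Prop) [∀ q m, Decidable (dv q m)]
  (g : ℕ → ℝ) (X : ℝ)

/-- the remainder of the set of primes `S` -/
def rem (S : Finset ℕ) : ℝ := |∑ m ∈ A with (∀ q ∈ S, dv q m), w m - X * ∏ q ∈ S, g q|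

lemma rem_nonneg (S : Finset ℕ) : 0 ≤ rem A w dv g X S := abs_nonneg _

/-- `f` has the expected sums over all divisibility classes by sets of elements
outside `Q`, with relative mean `M` and error function `N`. -/
def GoodR (Q : Finset ℕ) (f : α → ℝ) (M : ℝ) (N : Finset ℕ → ℝ) : Prop :=
  ∀ S : Finset ℕ, (∀ q ∈ S, q ∉ Q) →
    |∑ m ∈ A with (∀ q ∈ S, dv q m), w m * f m - X * (∏ q ∈ S, g q) * M| ≤ N S

variable {A w dv g X}

lemma GoodR.sub {Q : Finset ℕ} {f f' : α → ℝ} {M M' : ℝ} {N N' : Finset ℕ → ℝ}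
    (h : GoodR A w dv g X Q f M N) (h' : GoodR A w dv g X Q f' M' N') :
    GoodR A w dv g X Q (fun m => f m - f' m) (M - M') (fun S => N S + N' S) := by
  intro S hS
  have h1 := h S hS
  have h2 := h' S hS
  simp_rw [mul_sub]
  rw [sum_sub_distrib, abs_le] at *
  constructor <;> nlinarith [h1.1, h1.2, h2.1, h2.2]

/-- multiply by a divisor-sum supported on `B` -/
lemma GoodR.step {Q B : Finset ℕ} {f : α → ℝ} {M : ℝ} {N : Finset ℕ → ℝ}
    (h : GoodR A w dv g X Q f M N) (hB : ∀ q ∈ B, q ∉ Q) (𝒮 : Finset (Finset ℕ))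
    (h𝒮 : ∀ S ∈ 𝒮, S ⊆ B) (c : Finset ℕ → ℝ) (hc : ∀ S ∈ 𝒮, |c S| ≤ 1) :
    GoodR A w dv g X (Q ∪ B)
      (fun m => f m * ∑ S ∈ 𝒮 with (∀ q ∈ S, dv q m), c S)
      (M * ∑ S ∈ 𝒮, c S * ∏ q ∈ S, g q) (fun S₀ => ∑ S ∈ 𝒮, N (S₀ ∪ S)) := by
  classical
  intro S₀ hS₀
  have hdis : ∀ S ∈ 𝒮, Disjoint S₀ S := by
    intro S hS
    rw [disjoint_left]
    intro q hq hq'
    exact (hS₀ q hq) (mem_union_right _ (h𝒮 S hS hq'))
  have hcl : ∀ S ∈ 𝒮, ∀ q ∈ S₀ ∪ S, q ∉ Q := by
    intro S hS q hq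
    rcases mem_union.1 hq with hq | hq
    · exact fun h => (hS₀ q hq) (mem_union_left _ h)
    · exact hB q (h𝒮 S hS hq)
  have hsum : ∑ m ∈ A with (∀ q ∈ S₀, dv q m),
      w m * (f m * ∑ S ∈ 𝒮 with (∀ q ∈ S, dv q m), c S) =
      ∑ S ∈ 𝒮, c S * ∑ m ∈ A with (∀ q ∈ S₀ ∪ S, dv q m), w m * f m := by
    have h1 : ∀ m, w m * (f m * ∑ S ∈ 𝒮 with (∀ q ∈ S, dv q m), c S) =
        ∑ S ∈ 𝒮, if (∀ q ∈ S, dv q m) then c S * (w m * f m) else 0 := by
      intro m
      rw [← mul_assoc, mul_sum, sum_filter]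
      refine sum_congr rfl fun S _ => ?_
      split_ifs
      · ring
      · rfl
    simp_rw [h1]
    rw [sum_comm]
    refine sum_congr rfl fun S _ => ?_
    rw [← sum_filter, mul_sum, filter_filter]
    refine sum_congr ?_ fun _ _ => rfl
    ext m
    simp only [mem_filter, mem_union]
    constructor
    · rintro ⟨hm, h1, h2⟩
      exact ⟨hm, fun q hq => hq.elim (h1 q) (h2 q)⟩
    · rintro ⟨hm, h1⟩
      exact ⟨hm, fun q hq => h1 q (Or.inl hq), fun q hq => h1 q (Or.inr hq)⟩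
  have hmain : X * (∏ q ∈ S₀, g q) * (M * ∑ S ∈ 𝒮, c S * ∏ q ∈ S, g q) =
      ∑ S ∈ 𝒮, c S * (X * (∏ q ∈ S₀ ∪ S, g q) * M) := by
    rw [mul_sum, mul_sum]
    refine sum_congr rfl fun S hS => ?_
    rw [prod_union (hdis S hS)]
    ring
  rw [hsum, hmain, ← sum_sub_distrib]
  refine (abs_sum_le_sum_abs _ _).trans (sum_le_sum fun S hS => ?_)
  rw [← mul_sub, abs_mul]
  calc |c S| * _ ≤ 1 * N (S₀ ∪ S) :=
        mul_le_mul (hc S hS) (h _ (hcl S hS)) (abs_nonneg _) zero_le_one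
    _ = N (S₀ ∪ S) := one_mul _

end family

section sieve

variable {α : Type*} (A : Finset α) (w : α → ℝ) (dv : ℕ → α → Prop) [∀ q m, Decidable (dv q m)]
  (g : ℕ → ℝ) (X : ℝ) (B : ℕ → Finset ℕ) (b : ℕ → ℕ)

/-- sets of primes from the first `t` blocks, at most `2 b j` in the `j`-th -/
def DU (t : ℕ) : Finset (Finset ℕ) :=
  (Qs B t).powerset.filter (fun S => ∀ j < t, (S ∩ B j).card ≤ 2 * b j)

/-- sets of primes from the first `t` blocks, at most `2 b j + 1` in the `j`-th -/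
def DL (t : ℕ) : Finset (Finset ℕ) :=
  (Qs B t).powerset.filter (fun S => ∀ j < t, (S ∩ B j).card ≤ 2 * b j + 1)

/-- error functions -/
def NR : ℕ → Finset ℕ → ℝ × ℝ
  | 0, S => (rem A w dv g X S, rem A w dv g X S)
  | t + 1, S =>
    (∑ S' ∈ TS (B t) (2 * b t), (NR t (S ∪ S')).1,
     ∑ S' ∈ TS (B t) (2 * b t), (NR t (S ∪ S')).2 +
      ∑ S' ∈ (B t).powersetCard (2 * b t + 1), (NR t (S ∪ S')).1)

variable {A w dv g X B b}

lemma UL_goodR (hdis : ∀ i j, i < j → Disjoint (B i) (B j)) (t : ℕ) :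
    GoodR A w dv g X (Qs B t) (fun m => (UL dv B b t m).1)
      (MUL g B b t).1 (fun S => (NR A w dv g X B b t S).1) ∧
    GoodR A w dv g X (Qs B t) (fun m => (UL dv B b t m).2)
      (MUL g B b t).2 (fun S => (NR A w dv g X B b t S).2) := by
  induction t with
  | zero =>
    have h0 : GoodR A w dv g X (∅ : Finset ℕ) (fun _ => (1 : ℝ)) 1 (fun S => rem A w dv g X S) := by
      intro S _
      simp only [mul_one]
      exact le_rfl
    simp only [UL, MUL, NR, Qs, range_zero, biUnion_empty]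
    exact ⟨h0, h0⟩
  | succ t ih =>
    have hQ : Qs B (t + 1) = Qs B t ∪ B t := by
      unfold Qs
      rw [range_add_one, biUnion_insert, union_comm]
    have hB : ∀ q ∈ B t, q ∉ Qs B t := by
      intro q hq h
      obtain ⟨i, hi, hq'⟩ := mem_biUnion.1 h
      exact (disjoint_left.1 (hdis i t (mem_range.1 hi)) hq') hq
    have hTS : ∀ S ∈ TS (B t) (2 * b t), S ⊆ B t := fun S hS =>
      mem_powerset.1 (mem_filter.1 hS).1
    have hPC : ∀ S ∈ (B t).powersetCard (2 * b t + 1), S ⊆ B t := fun S hS =>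
      (mem_powersetCard.1 hS).1
    have g1 := ih.1.step hB _ hTS (fun S => (-1 : ℝ) ^ S.card) (fun S _ => by simp)
    have g2 := ih.2.step hB _ hTS (fun S => (-1 : ℝ) ^ S.card) (fun S _ => by simp)
    have g3 := ih.1.step hB _ hPC (fun _ => (1 : ℝ)) (fun S _ => by simp)
    simp only [sum_filter_TS, sum_filter_powersetCard, ← T_eq_sum_TS] at g1 g2 g3
    rw [hQ]
    refine ⟨?_, ?_⟩
    · simpa only [UL, MUL, NR] using g1
    · have g4 := g2.sub g3
      simp only [UL, MUL, NR]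
      have hes : ∑ S ∈ (B t).powersetCard (2 * b t + 1), (1 : ℝ) * ∏ q ∈ S, g q =
          es g (B t) (2 * b t + 1) := by simp [es]
      rw [hes] at g4
      exact g4

lemma DU_subset_DL (t : ℕ) : DU B b t ⊆ DL B b t := by
  intro S hS
  unfold DU at hS
  unfold DL
  rw [mem_filter] at hS ⊢
  exact ⟨hS.1, fun j hj => (hS.2 j hj).trans (by omega)⟩

/-- splitting off the last block -/
lemma sum_blocks_le (hdis : ∀ i j, i < j → Disjoint (B i) (B j)) (t m : ℕ)
    (𝒟 𝒟' : Finset (Finset ℕ)) (h𝒟 : ∀ S ∈ 𝒟, S ⊆ Qs B t)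
    (h𝒟' : ∀ S ∈ 𝒟, ∀ S' ⊆ B t, S'.card ≤ m → S' ∪ S ∈ 𝒟')
    (f : Finset ℕ → ℝ) (hf : ∀ S, 0 ≤ f S) (S₀ : Finset ℕ) :
    ∑ S' ∈ TS (B t) m, ∑ S ∈ 𝒟, f (S₀ ∪ S' ∪ S) ≤ ∑ S ∈ 𝒟', f (S₀ ∪ S) := by
  classical
  have hB : ∀ q ∈ B t, q ∉ Qs B t := by
    intro q hq h
    obtain ⟨i, hi, hq'⟩ := mem_biUnion.1 h
    exact (disjoint_left.1 (hdis i t (mem_range.1 hi)) hq') hq
  rw [← sum_product']
  have hinj : Set.InjOn (fun p : Finset ℕ × Finset ℕ => p.1 ∪ p.2) (TS (B t) m ×ˢ 𝒟 : Finset _) := by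
    rintro ⟨a, c⟩ hac ⟨a', c'⟩ hac' h
    rw [mem_coe, mem_product] at hac hac'
    simp only at hac hac' h
    have ha : a ⊆ B t := mem_powerset.1 (mem_filter.1 hac.1).1
    have ha' : a' ⊆ B t := mem_powerset.1 (mem_filter.1 hac'.1).1
    have hc := h𝒟 c hac.2
    have hc' := h𝒟 c' hac'.2
    have h1 : ∀ x c : Finset ℕ, x ⊆ B t → c ⊆ Qs B t → (x ∪ c) ∩ B t = x := by
      intro x c hx hc
      ext q
      rw [mem_inter, mem_union]
      constructor
      · rintro ⟨h1 | h1, h2⟩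
        · exact h1
        · exact absurd (hc h1) (hB q h2)
      · intro h1
        exact ⟨Or.inl h1, hx h1⟩
    have h2 : ∀ x c : Finset ℕ, x ⊆ B t → c ⊆ Qs B t → (x ∪ c) ∩ Qs B t = c := by
      intro x c hx hc
      ext q
      rw [mem_inter, mem_union]
      constructor
      · rintro ⟨h1 | h1, h2⟩
        · exact absurd h2 (hB q (hx h1))
        · exact h1
      · intro h1
        exact ⟨Or.inr h1, hc h1⟩
    have e1 : a = a' := by
      rw [← h1 a c ha hc, ← h1 a' c' ha' hc', h]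
    have e2 : c = c' := by
      rw [← h2 a c ha hc, ← h2 a' c' ha' hc', h]
    rw [e1, e2]
  calc ∑ p ∈ TS (B t) m ×ˢ 𝒟, f (S₀ ∪ p.1 ∪ p.2)
      = ∑ p ∈ TS (B t) m ×ˢ 𝒟, (fun S => f (S₀ ∪ S)) (p.1 ∪ p.2) := by
        refine sum_congr rfl fun p _ => ?_
        simp only [union_assoc]
    _ = ∑ S ∈ (TS (B t) m ×ˢ 𝒟).image (fun p => p.1 ∪ p.2), f (S₀ ∪ S) := by
        rw [sum_image hinj]
    _ ≤ _ := by
        refine sum_le_sum_of_subset_of_nonneg ?_ fun S _ _ => hf _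
        intro S hS
        obtain ⟨p, hp, rfl⟩ := mem_image.1 hS
        rw [mem_product] at hp
        obtain ⟨hp1, hp2⟩ := hp
        unfold TS at hp1
        rw [mem_filter, mem_powerset] at hp1
        exact h𝒟' p.2 hp2 p.1 hp1.1 hp1.2

lemma union_mem (hdis : ∀ i j, i < j → Disjoint (B i) (B j)) (t : ℕ) (k : ℕ → ℕ) (S : Finset ℕ)
    (hS : S ∈ (Qs B t).powerset.filter (fun S => ∀ j < t, (S ∩ B j).card ≤ k j))
    (S' : Finset ℕ) (hS' : S' ⊆ B t) (hc : S'.card ≤ k t) :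
    S' ∪ S ∈ (Qs B (t + 1)).powerset.filter (fun S => ∀ j < t + 1, (S ∩ B j).card ≤ k j) := by
  classical
  rw [mem_filter, mem_powerset] at hS ⊢
  have hQ : Qs B (t + 1) = Qs B t ∪ B t := by
    unfold Qs
    rw [range_add_one, biUnion_insert, union_comm]
  refine ⟨?_, ?_⟩
  · rw [hQ]
    exact union_subset (hS'.trans subset_union_right) (hS.1.trans subset_union_left)
  · intro j hj
    rcases Nat.lt_succ_iff_lt_or_eq.1 hj with h | h
    · have h1 : (S' ∪ S) ∩ B j = S ∩ B j := by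
        ext q
        simp only [mem_inter, mem_union]
        constructor
        · rintro ⟨h1 | h1, h2⟩
          · exact absurd (hS' h1) (disjoint_left.1 (hdis j t h) h2)
          · exact ⟨h1, h2⟩
        · rintro ⟨h1, h2⟩
          exact ⟨Or.inr h1, h2⟩
      rw [h1]
      exact hS.2 j h
    · subst h
      have h1 : (S' ∪ S) ∩ B j = S' := by
        ext q
        simp only [mem_inter, mem_union]
        constructor
        · rintro ⟨h1 | h1, h2⟩
          · exact h1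
          · obtain ⟨i, hi, hq'⟩ := mem_biUnion.1 (hS.1 h1)
            exact absurd h2 (disjoint_left.1 (hdis i j (mem_range.1 hi)) hq')
        · intro h1
          exact ⟨Or.inl h1, hS' h1⟩
      rw [h1]
      exact hc

lemma NR_le (hdis : ∀ i j, i < j → Disjoint (B i) (B j)) (t : ℕ) :
    (∀ S₀, (NR A w dv g X B b t S₀).1 ≤ ∑ S ∈ DU B b t, rem A w dv g X (S₀ ∪ S)) ∧
    (∀ S₀, (NR A w dv g X B b t S₀).1 ≤ ∑ S ∈ DL B b t, rem A w dv g X (S₀ ∪ S)) ∧
    (∀ S₀, (NR A w dv g X B b t S₀).2 ≤ ∑ S ∈ DL B b t, rem A w dv g X (S₀ ∪ S)) := by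
  classical
  induction t with
  | zero =>
    have h1 : DU B b 0 = {∅} := by simp [DU, Qs]
    have h2 : DL B b 0 = {∅} := by simp [DL, Qs]
    simp [NR, h1, h2]
  | succ t ih =>
    obtain ⟨ih1, ih2, ih3⟩ := ih
    have hU : ∀ S ∈ DU B b t, S ⊆ Qs B t := fun S hS => mem_powerset.1 (mem_filter.1 hS).1
    have hL : ∀ S ∈ DL B b t, S ⊆ Qs B t := fun S hS => mem_powerset.1 (mem_filter.1 hS).1
    have hr : ∀ S, 0 ≤ rem A w dv g X S := rem_nonneg _ _ _ _ _
    have key1 : ∀ S₀, (NR A w dv g X B b (t + 1) S₀).1 ≤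
        ∑ S ∈ DU B b (t + 1), rem A w dv g X (S₀ ∪ S) := by
      intro S₀
      simp only [NR]
      refine (sum_le_sum fun S' _ => ih1 (S₀ ∪ S')).trans ?_
      exact sum_blocks_le hdis t (2 * b t) (DU B b t) (DU B b (t + 1)) hU
        (fun S hS S' hS' hc => union_mem hdis t (fun j => 2 * b j) S hS S' hS' hc) _ hr S₀
    refine ⟨key1, fun S₀ => (key1 S₀).trans
      (sum_le_sum_of_subset_of_nonneg (DU_subset_DL _) fun S _ _ => hr _), fun S₀ => ?_⟩
    simp only [NR]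
    have h1 : ∑ S' ∈ TS (B t) (2 * b t), (NR A w dv g X B b t (S₀ ∪ S')).2 +
        ∑ S' ∈ (B t).powersetCard (2 * b t + 1), (NR A w dv g X B b t (S₀ ∪ S')).1 ≤
        ∑ S' ∈ TS (B t) (2 * b t + 1), ∑ S ∈ DL B b t, rem A w dv g X (S₀ ∪ S' ∪ S) := by
      have h2 : TS (B t) (2 * b t + 1) = TS (B t) (2 * b t) ∪ (B t).powersetCard (2 * b t + 1) := by
        ext S
        simp only [TS, mem_filter, mem_powerset, mem_union, mem_powersetCard]
        constructor
        · rintro ⟨h1, h2⟩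
          rcases Nat.lt_or_ge (2 * b t) S.card with h | h
          · exact Or.inr ⟨h1, by omega⟩
          · exact Or.inl ⟨h1, h⟩
        · rintro (⟨h1, h2⟩ | ⟨h1, h2⟩)
          · exact ⟨h1, by omega⟩
          · exact ⟨h1, by omega⟩
      have h3 : Disjoint (TS (B t) (2 * b t)) ((B t).powersetCard (2 * b t + 1)) := by
        rw [disjoint_left]
        intro S hS hS'
        have h4 := (mem_filter.1 hS).2
        have h5 := (mem_powersetCard.1 hS').2
        omega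
      rw [h2, sum_union h3]
      exact add_le_add (sum_le_sum fun S' _ => ih3 _) (sum_le_sum fun S' _ => ih2 _)
    refine h1.trans ?_
    exact sum_blocks_le hdis t (2 * b t + 1) (DL B b t) (DL B b (t + 1)) hL
      (fun S hS S' hS' hc => union_mem hdis t (fun j => 2 * b j + 1) S hS S' hS' hc) _ hr S₀

/-- Upper bound for the sifted elements divisible by all elements of `S₀`. -/
theorem upper_boundR (hw : ∀ m ∈ A, 0 ≤ w m)
    (hdis : ∀ i j, i < j → Disjoint (B i) (B j)) (t : ℕ)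
    (C : Finset α) (hC : C ⊆ A) (S₀ : Finset ℕ) (hS : ∀ q ∈ S₀, q ∉ Qs B t)
    (hCs : ∀ m ∈ C, Sifted dv B t m ∧ ∀ q ∈ S₀, dv q m) :
    ∑ m ∈ C, w m ≤ X * (∏ q ∈ S₀, g q) * (MUL g B b t).1 +
      ∑ S ∈ DU B b t, rem A w dv g X (S₀ ∪ S) := by
  classical
  have h := (UL_goodR (A := A) (w := w) (dv := dv) (g := g) (X := X) (b := b) hdis t).1 S₀ hS
  have h1 : ∑ m ∈ C, w m ≤ ∑ m ∈ A with (∀ q ∈ S₀, dv q m), w m * (UL dv B b t m).1 := by
    have hsub : C ⊆ A.filter (fun m => ∀ q ∈ S₀, dv q m) := fun m hm =>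
      mem_filter.2 ⟨hC hm, (hCs m hm).2⟩
    calc ∑ m ∈ C, w m = ∑ m ∈ C, w m * 1 := by simp
      _ ≤ ∑ m ∈ C, w m * (UL dv B b t m).1 :=
        sum_le_sum fun m hm => mul_le_mul_of_nonneg_left ((UL_bounds t m).1 (hCs m hm).1).2
          (hw m (hC hm))
      _ ≤ _ := by
        refine sum_le_sum_of_subset_of_nonneg hsub fun m hm _ => ?_
        refine mul_nonneg (hw m (mem_filter.1 hm).1) ?_
        by_cases hs : Sifted dv B t m
        · linarith [((UL_bounds (b := b) t m).1 hs).2]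
        · exact ((UL_bounds t m).2 hs).2
  have h2 := (NR_le (A := A) (w := w) (dv := dv) (g := g) (X := X) (b := b) hdis t).1 S₀
  linarith [(abs_le.1 h).2]

/-- Lower bound for the sifted elements. -/
theorem lower_boundR (hw : ∀ m ∈ A, 0 ≤ w m)
    (hdis : ∀ i j, i < j → Disjoint (B i) (B j)) (t : ℕ)
    (C : Finset α) (hC : C ⊆ A) (hCs : ∀ m ∈ A, Sifted dv B t m → m ∈ C) :
    X * (MUL g B b t).2 - ∑ S ∈ DL B b t, rem A w dv g X S ≤ ∑ m ∈ C, w m := by
  classical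
  have h := (UL_goodR (A := A) (w := w) (dv := dv) (g := g) (X := X) (b := b) hdis t).2 ∅ (by simp)
  simp only [notMem_empty, false_imp_iff, implies_true, filter_true, prod_empty, mul_one] at h
  have h1 : ∑ m ∈ A, w m * (UL dv B b t m).2 ≤ ∑ m ∈ C, w m := by
    calc ∑ m ∈ A, w m * (UL dv B b t m).2
        ≤ ∑ m ∈ A, (if m ∈ C then w m else 0) := by
          refine sum_le_sum fun m hm => ?_
          have hwm := hw m hm
          by_cases hs : Sifted dv B t m
          · rw [if_pos (hCs m hm hs)]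
            have := ((UL_bounds (b := b) t m).1 hs).1
            nlinarith
          · have := ((UL_bounds (b := b) t m).2 hs).1
            split_ifs <;> nlinarith
      _ = ∑ m ∈ C, w m := by
          rw [← sum_filter]
          refine sum_congr ?_ fun _ _ => rfl
          ext m
          rw [mem_filter]
          exact ⟨fun h => h.2, fun h => ⟨hC h, h⟩⟩
  have h2 := (NR_le (A := A) (w := w) (dv := dv) (g := g) (X := X) (b := b) hdis t).2.2 ∅
  simp only [empty_union] at h2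
  linarith [(abs_le.1 h).1]

end sieve

end

end Pool.Agent.Work.MP_40574a_nt.PA
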