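import Mathlib
import Pool.Agent.Work.MP_40574a_nt.SieveMain
import Pool.Agent.Work.MP_40574a_nt.PA.Sieve
import Pool.Agent.Work.MP_40574a_nt.PA.Params3

/-! # Module Two: the sieve of dimension three with explicit parameters

Follow the proof of `SieveMain.sieve_main` (`../SieveMain.lean`, dimension four): same blocks `Z`, `Blk`, `bb`
(ratio `3/5`, `b_j = 4 + j/3`), which do not depend on the density; use `upper_boundR`, `lower_boundR`
(`Sieve.lean`) instead of `upper_bound`, `lower_bound`. `𝒰 = DU (Blk w z J) (bb w J) (J+1)`, `ℒ = DL ...`.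
Support: for `S ∈ 𝒰` split `∏ S = ∏_j ∏ (S ∩ B_j) ≤ W ∏_{j<J} (Z z j)^(2 b_j) ≤ W exp(21.378 log z)`
(`SieveMain.sum_U`), `W = ∏ q ∈ PB 1 w, q`; for `ℒ` one more factor `Z z j` per block:
`∑ (3/5)^j ≤ 2.5`. Main terms: `es gp (B j) (2b+1) ≤ τ_j V`, `τ_j = e^{1.55} 1.54^{2b+1}/(2b+1)!`,
`∑_j τ_j ≤ 0.002` (`4.8 * 1.54^9/9! = 6.4e-4` for the first three blocks, then ratio `1.54²/110`), so
`MUL.1 ≤ ∏ (1 + τ_j) V_j ≤ e^{0.002} V ≤ 1.003 V` (`MUL_fst_le`), and `MUL.2 ≥ 0.998 MUL.1 ≥ 0.998 V`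
(`MUL_snd_ge`, `MUL_fst_ge`); `prod_V_eq` of SieveMain is proved there for `gd`, the same for `gp`. -/

namespace Pool.Agent.Work.MP_40574a_nt.PA

open Finset BrunHooley Mertens

noncomputable section

/-- survive the sieve up to `z` -/
def Sf (z : ℝ) (m : ℕ) : Prop := ∀ q : ℕ, q.Prime → (q : ℝ) ≤ z → ¬ dp q m

/-- the ratio -/
def Two_rho : ℝ := (1.54) ^ 2 / 110

/-- the leading coefficient -/
def Two_c9 : ℝ := 4.8 * ((1.54) ^ 9 / 362880)

lemma Two_sum_tau (J : ℕ) : ∑ j ∈ range J, Two_c9 * Two_rho ^ (j / 3) ≤ 0.002 := by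
  have hr : 0 ≤ Two_rho := by unfold Two_rho; positivity
  have hc : 0 ≤ Two_c9 := by unfold Two_c9; positivity
  have h1 : ∑ j ∈ range J, Two_c9 * Two_rho ^ (j / 3) ≤
      ∑ j ∈ range (3 * J), Two_c9 * Two_rho ^ (j / 3) :=
    sum_le_sum_of_subset_of_nonneg (range_subset_range.2 (by omega)) fun j _ _ => by positivity
  refine h1.trans ?_
  rw [SieveMain.sum_three]
  have h2 : ∀ k : ℕ, ∑ i ∈ range k, (Two_c9 * Two_rho ^ (3 * i / 3) +
      Two_c9 * Two_rho ^ ((3 * i + 1) / 3) + Two_c9 * Two_rho ^ ((3 * i + 2) / 3)) ≤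
      0.002 - 0.002 * Two_rho ^ k := by
    intro k
    induction k with
    | zero => norm_num
    | succ k ih =>
      rw [sum_range_succ]
      have e1 : 3 * k / 3 = k := by omega
      have e2 : (3 * k + 1) / 3 = k := by omega
      have e3 : (3 * k + 2) / 3 = k := by omega
      rw [e1, e2, e3, pow_succ]
      have hp : 0 ≤ Two_rho ^ k := by positivity
      have h3 : 3 * Two_c9 + 0.002 * Two_rho ≤ 0.002 := by
        unfold Two_c9 Two_rho
        norm_num
      nlinarith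
  refine (h2 J).trans ?_
  have : 0 ≤ Two_rho ^ J := by positivity
  linarith

lemma Two_exp_155 : Real.exp 1.55 ≤ 4.8 := by
  have h1 : Real.exp 1.55 = Real.exp 1 * Real.exp 0.05 ^ 11 := by
    rw [← Real.exp_nat_mul, ← Real.exp_add]; norm_num
  have h2 : Real.exp 0.05 ≤ 1 / (1 - 0.05) :=
    (Real.exp_bound_div_one_sub_of_interval' (by norm_num) (by norm_num)).le
  have h3 := Real.exp_one_lt_d9
  have h5 : 0 < Real.exp 0.05 := Real.exp_pos _
  rw [h1]
  calc Real.exp 1 * Real.exp 0.05 ^ 11 ≤ 2.7182818286 * (1 / (1 - 0.05)) ^ 11 := by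
        gcongr
    _ ≤ 4.8 := by norm_num

lemma Two_pow_div_factorial_le (i : ℕ) :
    (1.54 : ℝ) ^ (2 * (4 + i) + 1) / ((2 * (4 + i) + 1).factorial : ℝ) ≤
      ((1.54) ^ 9 / 362880) * Two_rho ^ i := by
  induction i with
  | zero => norm_num [Nat.factorial]
  | succ i ih =>
    have e1 : 2 * (4 + (i + 1)) + 1 = (2 * (4 + i) + 1) + 1 + 1 := by ring
    rw [e1, Nat.factorial_succ, Nat.factorial_succ, pow_succ, pow_succ, pow_succ Two_rho]
    have hpos : (0 : ℝ) < ((2 * (4 + i) + 1).factorial : ℝ) := by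
      exact_mod_cast Nat.factorial_pos _
    have hi : (0 : ℝ) ≤ i := Nat.cast_nonneg i
    have h1 : (1.54 : ℝ) ^ (2 * (4 + i) + 1) * 1.54 * 1.54 /
        (((2 * (4 + i) + 1 + 1 + 1 : ℕ) * ((2 * (4 + i) + 1 + 1 : ℕ) *
          (2 * (4 + i) + 1).factorial) : ℕ) : ℝ) =
        ((1.54 : ℝ) ^ (2 * (4 + i) + 1) / ((2 * (4 + i) + 1).factorial : ℝ)) *
          (1.54 ^ 2 / ((2 * (4 + i) + 1 + 1 + 1 : ℕ) * (2 * (4 + i) + 1 + 1 : ℕ))) := by
      push_cast
      field_simp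
    rw [h1]
    have h2 : (1.54 : ℝ) ^ 2 / ((2 * (4 + i) + 1 + 1 + 1 : ℕ) * (2 * (4 + i) + 1 + 1 : ℕ)) ≤
        Two_rho := by
      unfold Two_rho
      refine div_le_div_of_nonneg_left (by positivity) (by norm_num) ?_
      push_cast
      nlinarith
    have h3 : 0 ≤ Two_rho := by unfold Two_rho; positivity
    have h4 : (0 : ℝ) ≤ ((1.54) ^ 9 / 362880) * Two_rho ^ i := by positivity
    rw [← mul_assoc]
    exact mul_le_mul ih h2 (by positivity) h4

section blocks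

variable {w z : ℝ} {J : ℕ}

lemma Two_prod_V_eq (hw : 1 ≤ w) (hz : w ≤ z) (hJ : SieveMain.Z z J ≤ w) :
    ∏ j ∈ range (J + 1), V gp (SieveMain.Blk w z J j) = V gp (PB 1 z) := by
  have h1 : ∏ j ∈ range (J + 1), V gp (SieveMain.Blk w z J j) =
      V gp (Qs (SieveMain.Blk w z J) (J + 1)) := by
    unfold V Qs
    rw [prod_biUnion]
    intro i _ j _ hij
    rcases lt_or_gt_of_ne hij with h | h
    · exact SieveMain.Blk_disj (by linarith) (by linarith) i j h
    · exact (SieveMain.Blk_disj (by linarith) (by linarith) j i h).symm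
  rw [h1, SieveMain.Qs_eq hw hz hJ]

lemma Two_sifted_iff (hw : 1 ≤ w) (hz : w ≤ z) (hJ : SieveMain.Z z J ≤ w) (m : ℕ) :
    Sifted dp (SieveMain.Blk w z J) (J + 1) m ↔ Sf z m := by
  unfold Sifted Sf
  rw [SieveMain.Qs_eq hw hz hJ]
  constructor
  · intro h q hq hqz
    refine h q ((mem_PB zero_le_one (by linarith)).2 ⟨hq, ?_, hqz⟩)
    exact_mod_cast hq.one_lt
  · intro h q hq
    rw [mem_PB zero_le_one (by linarith)] at hq
    exact h q hq.1 hq.2.2

/-- the size of the products of the sets in the support -/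
lemma Two_prod_le (hw : 1 ≤ w) (hz : w ≤ z) {S : Finset ℕ}
    (hS : S ⊆ Qs (SieveMain.Blk w z J) (J + 1)) (k : ℕ → ℕ)
    (hk : ∀ j < J, (S ∩ SieveMain.Blk w z J j).card ≤ k j) :
    ((∏ q ∈ S, q : ℕ) : ℝ) ≤ ((∏ q ∈ PB 1 w, q : ℕ) : ℝ) *
      Real.exp ((∑ j ∈ range J, (k j : ℝ) * (3 / 5 : ℝ) ^ j) * Real.log z) := by
  have hz1 : 1 ≤ z := by linarith
  have hw0 : 0 ≤ w := by linarith
  have hlz : 0 ≤ Real.log z := Real.log_nonneg hz1
  have h1 : S = (range (J + 1)).biUnion (fun j => S ∩ SieveMain.Blk w z J j) := by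
    ext q
    rw [mem_biUnion]
    constructor
    · intro hq
      obtain ⟨j, hj, hq'⟩ := mem_biUnion.1 (hS hq)
      exact ⟨j, hj, mem_inter.2 ⟨hq, hq'⟩⟩
    · rintro ⟨j, _, hq⟩
      exact (mem_inter.1 hq).1
  have h2 : (∏ q ∈ S, (q : ℝ)) =
      ∏ j ∈ range (J + 1), ∏ q ∈ S ∩ SieveMain.Blk w z J j, (q : ℝ) := by
    conv_lhs => rw [h1]
    rw [prod_biUnion]
    intro i _ j _ hij
    have hd : Disjoint (SieveMain.Blk w z J i) (SieveMain.Blk w z J j) := by
      rcases lt_or_gt_of_ne hij with h | h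
      · exact SieveMain.Blk_disj hw0 hz1 i j h
      · exact (SieveMain.Blk_disj hw0 hz1 j i h).symm
    exact (hd.mono inter_subset_right inter_subset_right)
  push_cast
  rw [h2, prod_range_succ, mul_comm]
  have h3 : ∏ q ∈ S ∩ SieveMain.Blk w z J J, (q : ℝ) ≤ ∏ q ∈ PB 1 w, (q : ℝ) := by
    rw [SieveMain.Blk_eq]
    have h5 : ∏ q ∈ S ∩ PB 1 w, q ≤ ∏ q ∈ PB 1 w, q :=
      prod_le_prod_of_subset_of_one_le' inter_subset_right
        fun q hq _ => (Params.PB_prime q hq).pos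
    have h6 : ((∏ q ∈ S ∩ PB 1 w, q : ℕ) : ℝ) ≤ ((∏ q ∈ PB 1 w, q : ℕ) : ℝ) := Nat.cast_le.2 h5
    rwa [Nat.cast_prod, Nat.cast_prod] at h6
  have h4 : ∏ j ∈ range J, ∏ q ∈ S ∩ SieveMain.Blk w z J j, (q : ℝ) ≤
      Real.exp ((∑ j ∈ range J, (k j : ℝ) * (3 / 5 : ℝ) ^ j) * Real.log z) := by
    rw [sum_mul, Real.exp_sum]
    refine prod_le_prod (fun j _ => prod_nonneg fun q _ => Nat.cast_nonneg q) fun j hj => ?_
    have hj' := mem_range.1 hj
    have h5 : ∀ q ∈ S ∩ SieveMain.Blk w z J j, (q : ℝ) ≤ SieveMain.Z z j := by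
      intro q hq
      exact ((SieveMain.mem_Blk_lt hw0 hj').1 (mem_inter.1 hq).2).2.2
    have hZ1 : 1 ≤ SieveMain.Z z j := by
      unfold SieveMain.Z
      exact Real.one_le_exp (mul_nonneg (by positivity) hlz)
    calc ∏ q ∈ S ∩ SieveMain.Blk w z J j, (q : ℝ)
        ≤ ∏ _q ∈ S ∩ SieveMain.Blk w z J j, SieveMain.Z z j :=
          prod_le_prod (fun q _ => Nat.cast_nonneg q) h5
      _ = (SieveMain.Z z j) ^ (S ∩ SieveMain.Blk w z J j).card := by rw [prod_const]
      _ ≤ (SieveMain.Z z j) ^ (k j) := pow_le_pow_right₀ hZ1 (hk j hj')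
      _ = Real.exp ((k j : ℝ) * (3 / 5 : ℝ) ^ j * Real.log z) := by
          unfold SieveMain.Z
          rw [← Real.exp_nat_mul]
          congr 1
          ring
  exact mul_le_mul h3 h4 (prod_nonneg fun j _ => prod_nonneg fun q _ => Nat.cast_nonneg q)
    (prod_nonneg fun q _ => Nat.cast_nonneg q)

end blocks

lemma Two_sum_geom (J : ℕ) : ∑ j ∈ range J, (3 / 5 : ℝ) ^ j ≤ 2.5 := by
  have h : ∀ k : ℕ, ∑ j ∈ range k, (3 / 5 : ℝ) ^ j = 2.5 - 2.5 * (3 / 5) ^ k := by
    intro k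
    induction k with
    | zero => norm_num
    | succ k ih => rw [sum_range_succ, ih, pow_succ]; ring
  rw [h]
  have : (0 : ℝ) ≤ (3 / 5) ^ J := by positivity
  linarith

open Classical in
theorem sieve3 : ∃ z0 W : ℝ, 2 ≤ z0 ∧ 1 ≤ W ∧ ∀ z : ℝ, z0 ≤ z → ∃ 𝒰 ℒ : Finset (Finset ℕ),
    (∀ S ∈ 𝒰, (∀ q ∈ S, q.Prime ∧ (q : ℝ) ≤ z) ∧
      (((∏ q ∈ S, q : ℕ) : ℝ) ≤ W * Real.exp (21.378 * Real.log z))) ∧
    (∀ S ∈ ℒ, (∀ q ∈ S, q.Prime ∧ (q : ℝ) ≤ z) ∧
      (((∏ q ∈ S, q : ℕ) : ℝ) ≤ W * Real.exp (23.878 * Real.log z))) ∧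
    ∀ (A : Finset ℕ) (w : ℕ → ℝ) (X : ℝ), 0 ≤ X → (∀ m ∈ A, 0 ≤ w m) →
      (0.998 * X * V gp (PB 1 z) - ∑ S ∈ ℒ, rem A w dp gp X S ≤
        ∑ m ∈ A.filter (fun m => Sf z m), w m) ∧
      (∀ q : ℕ, q.Prime → z < q → ∑ m ∈ A.filter (fun m => Sf z m ∧ dp q m), w m ≤
        1.003 * X * gp q * V gp (PB 1 z) + ∑ S ∈ 𝒰, rem A w dp gp X ({q} ∪ S)) := by
  obtain ⟨w1, hw1, hblock⟩ := block_sum3
  obtain ⟨w2, hw2, hblockV⟩ := block_V3
  set w := max 2000 (max w1 w2) with hw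
  have hw2000 : 2000 ≤ w := le_max_left _ _
  have hww1 : w1 ≤ w := (le_max_left _ _).trans (le_max_right _ _)
  have hww2 : w2 ≤ w := (le_max_right _ _).trans (le_max_right _ _)
  have hWone : (1 : ℝ) ≤ ((∏ q ∈ PB 1 w, q : ℕ) : ℝ) := by
    have : 1 ≤ ∏ q ∈ PB 1 w, q := Nat.succ_le_of_lt (prod_pos fun q hq => (Params.PB_prime q hq).pos)
    exact_mod_cast this
  refine ⟨w, ((∏ q ∈ PB 1 w, q : ℕ) : ℝ), by linarith, hWone, fun z hz => ?_⟩
  have hz1 : 1 ≤ z := by linarith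
  have hz0 : 0 < z := by linarith
  have hlz : 0 < Real.log z := Real.log_pos (by linarith)
  obtain ⟨J, hJ1, hJ2⟩ := SieveMain.exists_J z (show 2 ≤ w by linarith)
  set B := SieveMain.Blk w z J with hB
  set b' := SieveMain.bb w J with hb'
  have hg : ∀ j, ∀ q ∈ B j, 0 ≤ gp q := fun j q _ => gp_nonneg q
  have hg1 : ∀ j, ∀ q ∈ B j, gp q < 1 := fun j q hq => gp_lt_one (SieveMain.Blk_prime j q hq)
  have hdis := SieveMain.Blk_disj (w := w) (z := z) (J := J) (by linarith) hz1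
  have hbj : ∀ j, J ≤ j → b' j = (PB 1 w).card := by
    intro j hj; rw [hb']; unfold SieveMain.bb; rw [if_neg (by omega)]
  have hbj' : ∀ j, j < J → b' j = 4 + j / 3 := by
    intro j hj; rw [hb']; unfold SieveMain.bb; rw [if_pos hj]
  have hcardJ : ∀ j, J ≤ j → (B j).card < 2 * b' j + 1 := by
    intro j hj
    rw [hbj j hj]
    rcases Nat.eq_or_lt_of_le hj with h | h
    · subst h
      rw [hB, SieveMain.Blk_eq]; omega
    · rw [hB, SieveMain.Blk_gt h]; simp
  -- block sums for the large blocks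
  have hsum : ∀ j < J, ∑ q ∈ B j, gp q ≤ 1.54 := by
    intro j hj
    rw [hB, SieveMain.Blk_lt hj]
    refine hblock w hww1 _ _ (le_max_left _ _)
      (max_le (hJ2 j hj).le (SieveMain.Z_anti hz1 (by omega))) ?_
    have h1 : Real.log (SieveMain.Z z (j + 1)) ≤ Real.log (max w (SieveMain.Z z (j + 1))) :=
      Real.log_le_log (SieveMain.Z_pos _ _) (le_max_right _ _)
    rw [SieveMain.log_Z] at h1 ⊢
    rw [pow_succ] at h1
    nlinarith
  have hVj : ∀ j < J, Real.exp (-1.55) ≤ V gp (B j) := by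
    intro j hj
    have := hsum j hj
    rw [hB, SieveMain.Blk_lt hj] at this ⊢
    exact hblockV w hww2 _ _ (le_max_left _ _)
      (max_le (hJ2 j hj).le (SieveMain.Z_anti hz1 (by omega))) this
  -- the tau's
  set τ : ℕ → ℝ := fun j => if j < J then Two_c9 * Two_rho ^ (j / 3) else 0 with hτdef
  have hτ : ∀ j, es gp (B j) (2 * b' j + 1) ≤ τ j * V gp (B j) := by
    intro j
    by_cases hj : j < J
    · simp only [hτdef, if_pos hj]
      rw [hbj' j hj]
      have h1 := es_le_pow (hg j) (2 * (4 + j / 3) + 1)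
      have hs0 : 0 ≤ ∑ q ∈ B j, gp q := sum_nonneg (hg j)
      have h2 : (∑ q ∈ B j, gp q) ^ (2 * (4 + j / 3) + 1) ≤ (1.54 : ℝ) ^ (2 * (4 + j / 3) + 1) :=
        pow_le_pow_left₀ hs0 (hsum j hj) _
      have hfpos : (0 : ℝ) < ((2 * (4 + j / 3) + 1).factorial : ℝ) := by
        exact_mod_cast Nat.factorial_pos _
      have h3 : es gp (B j) (2 * (4 + j / 3) + 1) ≤
          ((1.54) ^ 9 / 362880) * Two_rho ^ (j / 3) := by
        refine h1.trans ((div_le_div_of_nonneg_right h2 hfpos.le).trans ?_)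
        exact Two_pow_div_factorial_le (j / 3)
      have h4 := hVj j hj
      have h5 : 1 ≤ 4.8 * V gp (B j) := by
        have h6 : Real.exp 1.55 * Real.exp (-1.55) = 1 := by
          rw [← Real.exp_add]; norm_num
        calc 1 = Real.exp 1.55 * Real.exp (-1.55) := h6.symm
          _ ≤ 4.8 * V gp (B j) := by
            have := Two_exp_155
            gcongr
      have h7 : (0 : ℝ) ≤ ((1.54) ^ 9 / 362880) * Two_rho ^ (j / 3) := by
        unfold Two_rho; positivity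
      calc es gp (B j) (2 * (4 + j / 3) + 1) ≤
            ((1.54) ^ 9 / 362880) * Two_rho ^ (j / 3) * 1 := by
            linarith
        _ ≤ ((1.54) ^ 9 / 362880) * Two_rho ^ (j / 3) * (4.8 * V gp (B j)) := by gcongr
        _ = Two_c9 * Two_rho ^ (j / 3) * V gp (B j) := by unfold Two_c9; ring
    · simp only [hτdef, if_neg hj, zero_mul]
      unfold es
      rw [powersetCard_eq_empty.2 (hcardJ j (by omega)), sum_empty]
  have hτ0 : ∀ j, 0 ≤ τ j := by
    intro j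
    simp only [hτdef]
    split_ifs
    · unfold Two_c9 Two_rho; positivity
    · exact le_rfl
  have hτsum : ∑ j ∈ range (J + 1), τ j ≤ 0.002 := by
    rw [sum_range_succ]
    have h1 : τ J = 0 := by simp [hτdef]
    rw [h1, add_zero]
    have h2 : ∑ j ∈ range J, τ j = ∑ j ∈ range J, Two_c9 * Two_rho ^ (j / 3) :=
      sum_congr rfl fun j hj => by simp [hτdef, mem_range.1 hj]
    rw [h2]
    exact Two_sum_tau J
  have hVprod := Two_prod_V_eq (w := w) (z := z) (J := J) (by linarith) hz hJ1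
  have hVpos : 0 < V gp (PB 1 z) := V3_pos Params.PB_prime
  -- main terms
  have hM1 : (MUL gp B b' (J + 1)).1 ≤ 1.003 * V gp (PB 1 z) := by
    refine (MUL_fst_le hg hg1 τ hτ (J + 1)).trans ?_
    rw [prod_mul_distrib, hVprod]
    refine mul_le_mul_of_nonneg_right ?_ hVpos.le
    calc ∏ j ∈ range (J + 1), (1 + τ j) ≤ ∏ j ∈ range (J + 1), Real.exp (τ j) :=
          prod_le_prod (fun j _ => by linarith [hτ0 j]) fun j _ => by
            linarith [Real.add_one_le_exp (τ j)]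
      _ = Real.exp (∑ j ∈ range (J + 1), τ j) := by rw [Real.exp_sum]
      _ ≤ Real.exp 0.002 := Real.exp_le_exp.2 hτsum
      _ ≤ 1 / (1 - 0.002) :=
          (Real.exp_bound_div_one_sub_of_interval' (by norm_num) (by norm_num)).le
      _ ≤ 1.003 := by norm_num
  have hM2 : 0.998 * V gp (PB 1 z) ≤ (MUL gp B b' (J + 1)).2 := by
    have h1 := MUL_snd_ge (b := b') hg hg1 τ hτ (J + 1)
    have h2 := MUL_fst_ge (b := b') hg hg1 (J + 1)
    rw [hVprod] at h2
    have h3 : (0.998 : ℝ) ≤ 1 - ∑ j ∈ range (J + 1), τ j := by linarith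
    calc 0.998 * V gp (PB 1 z) ≤ 0.998 * (MUL gp B b' (J + 1)).1 := by gcongr
      _ ≤ (1 - ∑ j ∈ range (J + 1), τ j) * (MUL gp B b' (J + 1)).1 :=
          mul_le_mul_of_nonneg_right h3 (MUL_fst_pos hg hg1 (J + 1)).le
      _ ≤ _ := h1
  have hQs := SieveMain.Qs_eq (w := w) (z := z) (J := J) (by linarith) hz hJ1
  refine ⟨DU B b' (J + 1), DL B b' (J + 1), fun S hS => ?_, fun S hS => ?_,
    fun A wt X hX hwt => ⟨?_, fun q hq hqz => ?_⟩⟩
  · unfold DU at hS
    rw [mem_filter, mem_powerset] at hS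
    refine ⟨fun q hq => ?_, ?_⟩
    · have h1 := hS.1 hq
      rw [hB, hQs, mem_PB zero_le_one hz0.le] at h1
      exact ⟨h1.1, h1.2.2⟩
    · have h1 := Two_prod_le (w := w) (z := z) (J := J) (by linarith) hz hS.1
        (fun j => 2 * (4 + j / 3)) (fun j hj => by
          have := hS.2 j (by omega)
          rwa [hbj' j hj] at this)
      refine h1.trans ?_
      refine mul_le_mul_of_nonneg_left ?_ (by linarith)
      rw [Real.exp_le_exp]
      refine mul_le_mul_of_nonneg_right ?_ hlz.le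
      have := SieveMain.sum_U J
      push_cast at this ⊢
      exact this
  · unfold DL at hS
    rw [mem_filter, mem_powerset] at hS
    refine ⟨fun q hq => ?_, ?_⟩
    · have h1 := hS.1 hq
      rw [hB, hQs, mem_PB zero_le_one hz0.le] at h1
      exact ⟨h1.1, h1.2.2⟩
    · have h1 := Two_prod_le (w := w) (z := z) (J := J) (by linarith) hz hS.1
        (fun j => 2 * (4 + j / 3) + 1) (fun j hj => by
          have := hS.2 j (by omega)
          rwa [hbj' j hj] at this)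
      refine h1.trans ?_
      refine mul_le_mul_of_nonneg_left ?_ (by linarith)
      rw [Real.exp_le_exp]
      refine mul_le_mul_of_nonneg_right ?_ hlz.le
      have h2 := SieveMain.sum_U J
      have h3 := Two_sum_geom J
      have h4 : ∑ j ∈ range J, (((2 * (4 + j / 3) + 1 : ℕ) : ℝ)) * (3 / 5 : ℝ) ^ j =
          ∑ j ∈ range J, (2 * ((4 + j / 3 : ℕ) : ℝ)) * (3 / 5 : ℝ) ^ j +
            ∑ j ∈ range J, (3 / 5 : ℝ) ^ j := by
        rw [← sum_add_distrib]
        refine sum_congr rfl fun j _ => ?_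
        push_cast
        ring
      rw [h4]
      linarith
  · have h1 := lower_boundR (A := A) (w := wt) (dv := dp) (g := gp) (X := X) (B := B) (b := b')
      hwt hdis (J + 1) (A.filter (fun m => Sf z m)) (filter_subset _ _)
      (fun m hm hs => mem_filter.2 ⟨hm, (Two_sifted_iff (by linarith) hz hJ1 m).1 hs⟩)
    refine le_trans ?_ h1
    have h2 := mul_le_mul_of_nonneg_left hM2 hX
    linarith
  · have h1 := upper_boundR (A := A) (w := wt) (dv := dp) (g := gp) (X := X) (B := B) (b := b')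
      hwt hdis (J + 1) (A.filter (fun m => Sf z m ∧ dp q m)) (filter_subset _ _) {q}
      (by
        intro q' hq'
        rw [mem_singleton] at hq'
        subst hq'
        rw [hQs, mem_PB zero_le_one (by linarith)]
        rintro ⟨_, _, h⟩
        linarith)
      (fun m hm => ⟨(Two_sifted_iff (by linarith) hz hJ1 m).2 (mem_filter.1 hm).2.1, by
        intro q' hq'
        rw [mem_singleton] at hq'
        subst hq'
        exact (mem_filter.1 hm).2.2⟩)
    rw [prod_singleton] at h1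
    refine h1.trans ?_
    have h2 : X * gp q * (MUL gp B b' (J + 1)).1 ≤ X * gp q * (1.003 * V gp (PB 1 z)) :=
      mul_le_mul_of_nonneg_left hM1 (mul_nonneg hX (gp_nonneg q))
    linarith

end

end Pool.Agent.Work.MP_40574a_nt.PA
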