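import Mathlib
import Pool.Agent.Work.MP_40574a_nt.PA.Two

/-! # Module Weights: the weighted sum (helper70) -/

namespace Pool.Agent.Work.MP_40574a_nt.PA

open Finset BrunHooley Mertens

noncomputable section

/-- the weight; `z = exp(L/97)`, `y = exp(0.3525 L)` -/
def Wt (L : ℝ) (m : ℕ) : ℝ :=
  1 - (20 / 169) * ∑ q ∈ (PB (Real.exp (1 / 97 * L)) (Real.exp (0.3525 * L))).filter (fun q => dp q m),
    (1 - Real.log q / (0.3525 * L))

lemma squarefree_prod_primes {S : Finset ℕ} (hS : ∀ q ∈ S, q.Prime) :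
    Squarefree (∏ q ∈ S, q) := by
  classical
  induction S using Finset.induction_on with
  | empty => simp
  | insert q S hq ih =>
    have hS' : ∀ q ∈ S, q.Prime := fun r hr => hS r (mem_insert_of_mem hr)
    have hqp : q.Prime := hS q (mem_insert_self _ _)
    rw [prod_insert hq, Nat.squarefree_mul_iff]
    refine ⟨?_, hqp.squarefree, ih hS'⟩
    refine Nat.Coprime.prod_right fun r hr => ?_
    rw [Nat.coprime_primes hqp (hS' r hr)]
    rintro rfl
    exact hq hr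

/-- error sums over families of sets of primes -/
lemma sum_family_le (f : Finset ℕ → ℝ) (hf : ∀ S, 0 ≤ f S) (D : ℕ) (𝒟 : Finset (Finset ℕ))
    (h𝒟 : ∀ S ∈ 𝒟, (∀ q ∈ S, q.Prime) ∧ ∏ q ∈ S, q ≤ D) :
    ∑ S ∈ 𝒟, f S ≤ ∑ e ∈ (Icc 1 D).filter Squarefree, f e.primeFactors := by
  classical
  have hinj : Set.InjOn (fun S : Finset ℕ => ∏ q ∈ S, q) (𝒟 : Set (Finset ℕ)) := by
    intro S hS S' hS' h
    simp only at h
    have h1 := Nat.primeFactors_prod (h𝒟 S hS).1
    have h2 := Nat.primeFactors_prod (h𝒟 S' hS').1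
    rw [← h1, ← h2, h]
  calc ∑ S ∈ 𝒟, f S = ∑ S ∈ 𝒟, f (∏ q ∈ S, q).primeFactors :=
        sum_congr rfl fun S hS => by rw [Nat.primeFactors_prod (h𝒟 S hS).1]
    _ = ∑ e ∈ 𝒟.image (fun S => ∏ q ∈ S, q), f e.primeFactors := by
        rw [sum_image hinj]
    _ ≤ _ := by
        refine sum_le_sum_of_subset_of_nonneg ?_ fun e _ _ => hf _
        intro e he
        obtain ⟨S, hS, rfl⟩ := mem_image.1 he
        rw [mem_filter, mem_Icc]
        exact ⟨⟨Finset.prod_pos fun q hq => ((h𝒟 S hS).1 q hq).pos, (h𝒟 S hS).2⟩,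
          squarefree_prod_primes (h𝒟 S hS).1⟩

lemma sum_family2_le (f : Finset ℕ → ℝ) (hf : ∀ S, 0 ≤ f S) (D : ℕ) (z : ℝ) (P : Finset ℕ)
    (hP : ∀ q ∈ P, q.Prime ∧ z < q) (𝒟 : Finset (Finset ℕ))
    (h𝒟 : ∀ S ∈ 𝒟, (∀ q ∈ S, q.Prime ∧ (q : ℝ) ≤ z))
    (hD : ∀ q ∈ P, ∀ S ∈ 𝒟, q * ∏ r ∈ S, r ≤ D) :
    ∑ q ∈ P, ∑ S ∈ 𝒟, f ({q} ∪ S) ≤ ∑ e ∈ (Icc 1 D).filter Squarefree, f e.primeFactors := by
  classical
  rw [← sum_product']
  have hq : ∀ q ∈ P, ∀ S ∈ 𝒟, q ∉ S := by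
    intro q hq S hS h
    linarith [(hP q hq).2, (h𝒟 S hS q h).2]
  have hinj : Set.InjOn (fun p : ℕ × Finset ℕ => {p.1} ∪ p.2) (P ×ˢ 𝒟 : Finset _) := by
    rintro ⟨q, S⟩ hqS ⟨q', S'⟩ hqS' h
    rw [mem_coe, mem_product] at hqS hqS'
    simp only at hqS hqS' h
    have hfil : ∀ q ∈ P, ∀ S ∈ 𝒟, ({q} ∪ S).filter (fun r : ℕ => (r : ℝ) ≤ z) = S := by
      intro q hq S hS
      ext r
      rw [mem_filter, mem_union, mem_singleton]
      constructor
      · rintro ⟨h1 | h1, h2⟩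
        · subst h1
          linarith [(hP r hq).2]
        · exact h1
      · intro h1
        exact ⟨Or.inr h1, (h𝒟 S hS r h1).2⟩
    have e2 : S = S' := by
      rw [← hfil q hqS.1 S hqS.2, ← hfil q' hqS'.1 S' hqS'.2, h]
    have e1 : q = q' := by
      have h1 : q ∈ {q'} ∪ S' := by
        rw [← h]; simp
      rw [mem_union, mem_singleton] at h1
      rcases h1 with h1 | h1
      · exact h1
      · exact absurd h1 (hq q hqS.1 S' hqS'.2)
    rw [e1, e2]
  calc ∑ p ∈ P ×ˢ 𝒟, f ({p.1} ∪ p.2)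
      = ∑ S ∈ (P ×ˢ 𝒟).image (fun p => {p.1} ∪ p.2), f S := by
        rw [sum_image hinj]
    _ ≤ _ := by
        refine sum_family_le f hf D _ ?_
        intro T hT
        obtain ⟨p, hp, rfl⟩ := mem_image.1 hT
        rw [mem_product] at hp
        refine ⟨?_, ?_⟩
        · intro r hr
          rw [mem_union, mem_singleton] at hr
          rcases hr with rfl | hr
          · exact (hP _ hp.1).1
          · exact (h𝒟 _ hp.2 r hr).1
        · rw [← insert_eq, prod_insert (hq _ hp.1 _ hp.2)]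
          exact hD _ hp.1 _ hp.2

open Classical in
lemma tier_bound {a b c : ℝ} (ha : 1 / 97 ≤ a) (hab : a ≤ b) (hb : b ≤ 0.3525) (hc0 : 0 < c)
    (hc : c ≤ 1 / 97) (hlev : 21.378 * c + b ≤ 0.4499) :
    ∃ L0 : ℝ, 1 ≤ L0 ∧ ∀ L : ℝ, L0 ≤ L → ∀ (A : Finset ℕ) (w : ℕ → ℝ) (X : ℝ), 0 ≤ X →
      (∀ m ∈ A, 0 ≤ w m) →
      ∑ q ∈ PB (Real.exp (a * L)) (Real.exp (b * L)), (1 - Real.log q / (0.3525 * L)) *
        ∑ m ∈ A.filter (fun m => Sf (Real.exp (1 / 97 * L)) m ∧ dp q m), w m ≤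
      (3 * (Real.log (b / a) - (b - a) / 0.3525) + 0.001) * (1.003 * 1.002 * ((1 / 97) / c) ^ 3) *
        (X * V gp (PB 1 (Real.exp (1 / 97 * L)))) +
      ∑ e ∈ (Icc 1 ⌊Real.exp (0.45 * L)⌋₊).filter Squarefree, rem A w dp gp X e.primeFactors := by
  obtain ⟨z0, W, hz0, hW, hsieve⟩ := sieve3
  obtain ⟨z1, hz1, hratio⟩ := V3_ratio (ε := 0.002) (by norm_num)
  obtain ⟨L1, hL1, htier⟩ := tier_sum (ε := 0.001) (by norm_num) (a := a) (b := b) (d := 0.3525)
    (by linarith) hab hb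
  refine ⟨max L1 (max (Real.log z0 / c) (max (Real.log z1 / c) (10000 * Real.log W))),
    hL1.trans (le_max_left _ _), fun L hL A w X hX hw => ?_⟩
  have hL1' : L1 ≤ L := (le_max_left _ _).trans hL
  have hLz0 : Real.log z0 / c ≤ L := ((le_max_left _ _).trans (le_max_right _ _)).trans hL
  have hLz1 : Real.log z1 / c ≤ L :=
    (((le_max_left _ _).trans (le_max_right _ _)).trans (le_max_right _ _)).trans hL
  have hLW : 10000 * Real.log W ≤ L :=
    (((le_max_right _ _).trans (le_max_right _ _)).trans (le_max_right _ _)).trans hL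
  have hLpos : 0 < L := by linarith
  set z := Real.exp (1 / 97 * L) with hz
  set z' := Real.exp (c * L) with hz'
  have hzz0 : z0 ≤ z' := by
    rw [hz', ← Real.log_le_iff_le_exp (by linarith)]
    rwa [div_le_iff₀ hc0, mul_comm] at hLz0
  have hzz1 : z1 ≤ z' := by
    rw [hz', ← Real.log_le_iff_le_exp (by linarith)]
    rwa [div_le_iff₀ hc0, mul_comm] at hLz1
  have hz'z : z' ≤ z := by
    rw [hz', hz, Real.exp_le_exp]
    exact mul_le_mul_of_nonneg_right hc hLpos.le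
  have hza : z ≤ Real.exp (a * L) := by
    rw [hz, Real.exp_le_exp]
    exact mul_le_mul_of_nonneg_right ha hLpos.le
  obtain ⟨𝒰, ℒ, hU, hLL, hmain⟩ := hsieve z' hzz0
  obtain ⟨-, hup⟩ := hmain A w X hX hw
  have hd0 : (0 : ℝ) < 0.3525 * L := by positivity
  have hu : ∀ q ∈ PB (Real.exp (a * L)) (Real.exp (b * L)),
      0 ≤ 1 - Real.log q / (0.3525 * L) ∧ 1 - Real.log q / (0.3525 * L) ≤ 1 ∧ q.Prime ∧
        z' < q ∧ (q : ℝ) ≤ Real.exp (b * L) := by
    intro q hq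
    obtain ⟨h1, h2, h3⟩ := (mem_PB (Real.exp_pos _).le (Real.exp_pos _).le).1 hq
    have hq0 : (0 : ℝ) < q := by exact_mod_cast h1.pos
    have h4 : Real.log q ≤ b * L := by
      rw [Real.log_le_iff_le_exp hq0]; exact h3
    have h5 : Real.log q ≤ 0.3525 * L := h4.trans (mul_le_mul_of_nonneg_right hb hLpos.le)
    have h6 : 0 ≤ Real.log q := Real.log_natCast_nonneg q
    refine ⟨?_, ?_, h1, by linarith, h3⟩
    · rw [sub_nonneg, div_le_one hd0]; exact h5
    · have : 0 ≤ Real.log q / (0.3525 * L) := by positivity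
      linarith
  have hrem0 : ∀ S, 0 ≤ rem A w dp gp X S := rem_nonneg A w dp gp X
  -- the sum
  have h1 : ∑ q ∈ PB (Real.exp (a * L)) (Real.exp (b * L)), (1 - Real.log q / (0.3525 * L)) *
        ∑ m ∈ A.filter (fun m => Sf z m ∧ dp q m), w m ≤
      ∑ q ∈ PB (Real.exp (a * L)) (Real.exp (b * L)),
        ((gp q * (1 - Real.log q / (0.3525 * L))) * (1.003 * X * V gp (PB 1 z')) +
          ∑ S ∈ 𝒰, rem A w dp gp X ({q} ∪ S)) := by
    refine sum_le_sum fun q hq => ?_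
    obtain ⟨hu0, hu1, hqp, hzq, hqb⟩ := hu q hq
    have h2 : ∑ m ∈ A.filter (fun m => Sf z m ∧ dp q m), w m ≤
        ∑ m ∈ A.filter (fun m => Sf z' m ∧ dp q m), w m := by
      refine sum_le_sum_of_subset_of_nonneg ?_ fun m hm _ => hw m (mem_filter.1 hm).1
      intro m hm
      rw [mem_filter] at hm ⊢
      exact ⟨hm.1, fun r hr hrz => hm.2.1 r hr (hrz.trans hz'z), hm.2.2⟩
    have h3 := hup q hqp hzq
    have h4 : 0 ≤ ∑ S ∈ 𝒰, rem A w dp gp X ({q} ∪ S) := sum_nonneg fun S _ => hrem0 _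
    calc (1 - Real.log q / (0.3525 * L)) * ∑ m ∈ A.filter (fun m => Sf z m ∧ dp q m), w m
        ≤ (1 - Real.log q / (0.3525 * L)) * (1.003 * X * gp q * V gp (PB 1 z') +
            ∑ S ∈ 𝒰, rem A w dp gp X ({q} ∪ S)) :=
          mul_le_mul_of_nonneg_left (h2.trans h3) hu0
      _ = (gp q * (1 - Real.log q / (0.3525 * L))) * (1.003 * X * V gp (PB 1 z')) +
            (1 - Real.log q / (0.3525 * L)) * ∑ S ∈ 𝒰, rem A w dp gp X ({q} ∪ S) := by ring
      _ ≤ _ := by
          have := mul_le_mul_of_nonneg_right hu1 h4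
          linarith
  have h2 : ∑ q ∈ PB (Real.exp (a * L)) (Real.exp (b * L)),
      ∑ S ∈ 𝒰, rem A w dp gp X ({q} ∪ S) ≤
      ∑ e ∈ (Icc 1 ⌊Real.exp (0.45 * L)⌋₊).filter Squarefree,
        rem A w dp gp X e.primeFactors := by
    refine sum_family2_le (rem A w dp gp X) hrem0 _ z' _ (fun q hq => ⟨(hu q hq).2.2.1,
      (hu q hq).2.2.2.1⟩) 𝒰 (fun S hS => (hU S hS).1) ?_
    intro q hq S hS
    apply Nat.le_floor
    have h3 := (hU S hS).2
    have h4 := (hu q hq).2.2.2.2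
    push_cast at h3 ⊢
    have hWexp : W ≤ Real.exp (0.0001 * L) := by
      rw [← Real.log_le_iff_le_exp (by linarith)]
      linarith
    have hlz' : Real.log z' = c * L := Real.log_exp _
    rw [hlz'] at h3
    calc (q : ℝ) * ∏ r ∈ S, (r : ℝ) ≤ Real.exp (b * L) * (W * Real.exp (21.378 * (c * L))) := by
          gcongr
      _ ≤ Real.exp (b * L) * (Real.exp (0.0001 * L) * Real.exp (21.378 * (c * L))) := by
          gcongr
      _ = Real.exp ((21.378 * c + b + 0.0001) * L) := by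
          rw [← Real.exp_add, ← Real.exp_add]; congr 1; ring
      _ ≤ Real.exp (0.45 * L) := by
          rw [Real.exp_le_exp]
          exact mul_le_mul_of_nonneg_right (by linarith) hLpos.le
  have h3 : ∑ q ∈ PB (Real.exp (a * L)) (Real.exp (b * L)),
      (gp q * (1 - Real.log q / (0.3525 * L))) * (1.003 * X * V gp (PB 1 z')) ≤
      (3 * (Real.log (b / a) - (b - a) / 0.3525) + 0.001) *
        (1.003 * 1.002 * ((1 / 97) / c) ^ 3) * (X * V gp (PB 1 z)) := by
    rw [← sum_mul]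
    have e1 := htier L hL1'
    have e2 := hratio z' z hzz1 hz'z
    have e0 : 0 ≤ ∑ q ∈ PB (Real.exp (a * L)) (Real.exp (b * L)),
        gp q * (1 - Real.log q / (0.3525 * L)) :=
      sum_nonneg fun q hq => mul_nonneg (gp_nonneg q) (hu q hq).1
    have eV : 0 < V gp (PB 1 z') := V3_pos fun q hq => (mem_filter.1 hq).2
    have elog : Real.log z / Real.log z' = (1 / 97) / c := by
      rw [hz, hz', Real.log_exp, Real.log_exp]
      have : L ≠ 0 := hLpos.ne'
      field_simp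
    rw [elog] at e2
    have e3 : 1.003 * X * V gp (PB 1 z') ≤
        (1.003 * 1.002 * ((1 / 97) / c) ^ 3) * (X * V gp (PB 1 z)) := by
      have e4 := mul_le_mul_of_nonneg_left e2 (show (0 : ℝ) ≤ 1.003 * X by positivity)
      have e5 : (1.003 * X) * ((1 + 0.002) * ((1 / 97) / c) ^ 3 * V gp (PB 1 z)) =
          (1.003 * 1.002 * ((1 / 97) / c) ^ 3) * (X * V gp (PB 1 z)) := by ring
      linarith
    have e6 : 0 ≤ 1.003 * X * V gp (PB 1 z') := by positivity
    calc (∑ q ∈ PB (Real.exp (a * L)) (Real.exp (b * L)),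
          gp q * (1 - Real.log q / (0.3525 * L))) * (1.003 * X * V gp (PB 1 z'))
        ≤ (3 * (Real.log (b / a) - (b - a) / 0.3525) + 0.001) *
            ((1.003 * 1.002 * ((1 / 97) / c) ^ 3) * (X * V gp (PB 1 z))) :=
          mul_le_mul e1 e3 e6 (e0.trans e1)
      _ = _ := by ring
  rw [sum_add_distrib] at h1
  linarith

lemma sum_PB_add (f : ℕ → ℝ) {a b c : ℝ} (ha : 0 ≤ a) (hab : a ≤ b) (hbc : b ≤ c) :
    ∑ q ∈ PB a c, f q = ∑ q ∈ PB a b, f q + ∑ q ∈ PB b c, f q := by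
  have hb : 0 ≤ b := ha.trans hab
  have hc : 0 ≤ c := hb.trans hbc
  have h1 : PB a c = PB a b ∪ PB b c := by
    ext q
    rw [mem_union, mem_PB ha hc, mem_PB ha hb, mem_PB hb hc]
    constructor
    · rintro ⟨h, h1, h2⟩
      rcases le_or_gt (q : ℝ) b with h3 | h3
      · exact Or.inl ⟨h, h1, h3⟩
      · exact Or.inr ⟨h, h3, h2⟩
    · rintro (⟨h, h1, h2⟩ | ⟨h, h1, h2⟩)
      · exact ⟨h, h1, by linarith⟩
      · exact ⟨h, by linarith, h2⟩
  rw [h1, sum_union]
  rw [disjoint_left]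
  intro q hq hq'
  rw [mem_PB ha hb] at hq
  rw [mem_PB hb hc] at hq'
  linarith [hq.2.2, hq'.2.1]

lemma log_le_of {x c : ℝ} (hx : 0 < x) (n : ℕ) (hc : 0 ≤ c)
    (h : x ≤ ∑ i ∈ range n, c ^ i / (i.factorial : ℝ)) : Real.log x ≤ c := by
  rw [Real.log_le_iff_le_exp hx]
  exact h.trans (Real.sum_le_exp_of_nonneg hc n)

lemma num0 : Real.log (0.2285 / (1 / 97)) ≤ 3.0987 := by
  have h1 : Real.exp 3.0987 = Real.exp 1 * Real.exp 1 * Real.exp 1 * Real.exp 0.0987 := by
    rw [← Real.exp_add, ← Real.exp_add, ← Real.exp_add]; norm_num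
  have h2 := Real.exp_one_gt_d9
  have h3 : (1.10373 : ℝ) ≤ Real.exp 0.0987 := by
    refine le_trans ?_ (Real.sum_le_exp_of_nonneg (by norm_num : (0 : ℝ) ≤ 0.0987) 5)
    norm_num [Finset.sum_range_succ, Nat.factorial]
  rw [Real.log_le_iff_le_exp (by norm_num), h1]
  calc (0.2285 / (1 / 97) : ℝ) ≤ 2.7182818283 * 2.7182818283 * 2.7182818283 * 1.10373 := by
        norm_num
    _ ≤ _ := by gcongr

lemma num1 : Real.log (0.265 / 0.2285) ≤ 0.1482 :=
  log_le_of (by norm_num) 5 (by norm_num) (by norm_num [Finset.sum_range_succ, Nat.factorial])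

lemma num2 : Real.log (0.297 / 0.265) ≤ 0.1141 :=
  log_le_of (by norm_num) 5 (by norm_num) (by norm_num [Finset.sum_range_succ, Nat.factorial])

lemma num3 : Real.log (0.325 / 0.297) ≤ 0.0902 :=
  log_le_of (by norm_num) 5 (by norm_num) (by norm_num [Finset.sum_range_succ, Nat.factorial])

lemma num4 : Real.log (0.3525 / 0.325) ≤ 0.0813 :=
  log_le_of (by norm_num) 5 (by norm_num) (by norm_num [Finset.sum_range_succ, Nat.factorial])

/-- the total of the tiers -/
lemma num_total :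
    (3 * (Real.log (0.2285 / (1 / 97)) - (0.2285 - 1 / 97) / 0.3525) + 0.001) *
      (1.003 * 1.002 * ((1 / 97) / (1 / 97)) ^ 3) +
    (3 * (Real.log (0.265 / 0.2285) - (0.265 - 0.2285) / 0.3525) + 0.001) *
      (1.003 * 1.002 * ((1 / 97) / 0.00864) ^ 3) +
    (3 * (Real.log (0.297 / 0.265) - (0.297 - 0.265) / 0.3525) + 0.001) *
      (1.003 * 1.002 * ((1 / 97) / 0.00714) ^ 3) +
    (3 * (Real.log (0.325 / 0.297) - (0.325 - 0.297) / 0.3525) + 0.001) *
      (1.003 * 1.002 * ((1 / 97) / 0.00583) ^ 3) +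
    (3 * (Real.log (0.3525 / 0.325) - (0.3525 - 0.325) / 0.3525) + 0.001) *
      (1.003 * 1.002 * ((1 / 97) / 0.00455) ^ 3) ≤ 8.3 := by
  have h0 := num0
  have h1 := num1
  have h2 := num2
  have h3 := num3
  have h4 := num4
  generalize Real.log (0.2285 / (1 / 97)) = x0 at *
  generalize Real.log (0.265 / 0.2285) = x1 at *
  generalize Real.log (0.297 / 0.265) = x2 at *
  generalize Real.log (0.325 / 0.297) = x3 at *
  generalize Real.log (0.3525 / 0.325) = x4 at *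
  norm_num at *
  linarith

open Classical in
theorem weighted : ∃ c L0 : ℝ, 0 < c ∧ 1 ≤ L0 ∧ ∀ L : ℝ, L0 ≤ L →
    ∀ (A : Finset ℕ) (w : ℕ → ℝ) (X : ℝ), 0 ≤ X → (∀ m ∈ A, 0 ≤ w m) →
    c * X / L ^ 3 - 2 * ∑ e ∈ (Icc 1 ⌊Real.exp (0.45 * L)⌋₊).filter Squarefree,
        rem A w dp gp X e.primeFactors ≤
      ∑ m ∈ A.filter (fun m => Sf (Real.exp (1 / 97 * L)) m), w m * Wt L m := by
  obtain ⟨z0, W, hz0, hW, hsieve⟩ := sieve3
  obtain ⟨cV, hcV, hVl⟩ := V3_lower
  obtain ⟨L1, hL1, t1⟩ := tier_bound (a := 1 / 97) (b := 0.2285) (c := 1 / 97) (by norm_num)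
    (by norm_num) (by norm_num) (by norm_num) (by norm_num) (by norm_num)
  obtain ⟨L2, hL2, t2⟩ := tier_bound (a := 0.2285) (b := 0.265) (c := 0.00864) (by norm_num)
    (by norm_num) (by norm_num) (by norm_num) (by norm_num) (by norm_num)
  obtain ⟨L3, hL3, t3⟩ := tier_bound (a := 0.265) (b := 0.297) (c := 0.00714) (by norm_num)
    (by norm_num) (by norm_num) (by norm_num) (by norm_num) (by norm_num)
  obtain ⟨L4, hL4, t4⟩ := tier_bound (a := 0.297) (b := 0.325) (c := 0.00583) (by norm_num)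
    (by norm_num) (by norm_num) (by norm_num) (by norm_num) (by norm_num)
  obtain ⟨L5, hL5, t5⟩ := tier_bound (a := 0.325) (b := 0.3525) (c := 0.00455) (by norm_num)
    (by norm_num) (by norm_num) (by norm_num) (by norm_num) (by norm_num)
  refine ⟨0.01 * cV, max (max L1 (max L2 (max L3 (max L4 L5)))) (max (97 * Real.log z0)
    (max 97 (10 * Real.log W))), by positivity, ?_, fun L hL A w X hX hw => ?_⟩
  · exact hL1.trans ((le_max_left _ _).trans (le_max_left _ _))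
  have hm := max_le_iff.1 hL
  have hm1 := max_le_iff.1 hm.1
  have hm2 := max_le_iff.1 hm1.2
  have hm3 := max_le_iff.1 hm2.2
  have hm4 := max_le_iff.1 hm3.2
  have hm5 := max_le_iff.1 hm.2
  have hm6 := max_le_iff.1 hm5.2
  have hL97 : 97 ≤ L := hm6.1
  have hLpos : 0 < L := by linarith
  set z := Real.exp (1 / 97 * L) with hz
  set R := ∑ e ∈ (Icc 1 ⌊Real.exp (0.45 * L)⌋₊).filter Squarefree,
        rem A w dp gp X e.primeFactors with hR
  have hrem0 : ∀ S, 0 ≤ rem A w dp gp X S := rem_nonneg A w dp gp X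
  have hR0 : 0 ≤ R := sum_nonneg fun e _ => hrem0 _
  have hzz0 : z0 ≤ z := by
    rw [hz, ← Real.log_le_iff_le_exp (by linarith)]
    linarith [hm5.1]
  have hlz : Real.log z = 1 / 97 * L := Real.log_exp _
  obtain ⟨𝒰, ℒ, hU, hLL, hmain⟩ := hsieve z hzz0
  obtain ⟨hlow, -⟩ := hmain A w X hX hw
  have hlowR : ∑ S ∈ ℒ, rem A w dp gp X S ≤ R := by
    refine sum_family_le (rem A w dp gp X) hrem0 _ ℒ fun S hS => ⟨fun q hq =>
      ((hLL S hS).1 q hq).1, ?_⟩
    apply Nat.le_floor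
    have h3 := (hLL S hS).2
    have hWexp : W ≤ Real.exp (0.1 * L) := by
      rw [← Real.log_le_iff_le_exp (by linarith)]
      linarith [hm6.2]
    rw [hlz] at h3
    calc ((∏ q ∈ S, q : ℕ) : ℝ) ≤ W * Real.exp (23.878 * (1 / 97 * L)) := h3
      _ ≤ Real.exp (0.1 * L) * Real.exp (23.878 * (1 / 97 * L)) := by gcongr
      _ = Real.exp ((0.1 + 23.878 / 97) * L) := by
          rw [← Real.exp_add]; congr 1; ring
      _ ≤ Real.exp (0.45 * L) := by
          rw [Real.exp_le_exp]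
          exact mul_le_mul_of_nonneg_right (by norm_num) hLpos.le
  -- expand the weights
  have hexp : ∑ m ∈ A.filter (fun m => Sf z m), w m * Wt L m =
      ∑ m ∈ A.filter (fun m => Sf z m), w m - (20 / 169) *
        ∑ q ∈ PB z (Real.exp (0.3525 * L)), (1 - Real.log q / (0.3525 * L)) *
          ∑ m ∈ A.filter (fun m => Sf z m ∧ dp q m), w m := by
    have hWt : ∀ m, Wt L m = 1 - (20 / 169) * ∑ q ∈ (PB z (Real.exp (0.3525 * L))).filter
        (fun q => dp q m), (1 - Real.log q / (0.3525 * L)) := fun m => rfl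
    have hWt2 : ∀ m, w m * Wt L m = w m - w m * ((20 / 169) * ∑ q ∈ (PB z
        (Real.exp (0.3525 * L))).filter (fun q => dp q m), (1 - Real.log q / (0.3525 * L))) := by
      intro m
      rw [hWt m]; ring
    simp_rw [hWt2]
    rw [sum_sub_distrib]
    congr 1
    rw [mul_sum]
    have h1 : ∀ m, w m * (20 / 169 * ∑ q ∈ (PB z (Real.exp (0.3525 * L))).filter
        (fun q => dp q m), (1 - Real.log q / (0.3525 * L))) =
        ∑ q ∈ PB z (Real.exp (0.3525 * L)),
          if dp q m then 20 / 169 * (1 - Real.log q / (0.3525 * L)) * w m else 0 := by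
      intro m
      rw [← sum_filter, mul_sum, mul_sum]
      refine sum_congr rfl fun q _ => by ring
    simp_rw [h1]
    rw [sum_comm]
    refine sum_congr rfl fun q _ => ?_
    rw [← sum_filter, filter_filter, mul_sum, mul_sum]
    refine sum_congr rfl fun m _ => by ring
  rw [hexp]
  have s1 := t1 L hm1.1 A w X hX hw
  have s2 := t2 L hm2.1 A w X hX hw
  have s3 := t3 L hm3.1 A w X hX hw
  have s4 := t4 L hm4.1 A w X hX hw
  have s5 := t5 L hm4.2 A w X hX hw
  rw [← hz, ← hR] at s1 s2 s3 s4 s5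
  have hmono : ∀ {s t : ℝ}, s ≤ t → Real.exp (s * L) ≤ Real.exp (t * L) := fun h =>
    Real.exp_le_exp.2 (mul_le_mul_of_nonneg_right h hLpos.le)
  have hsplit : ∑ q ∈ PB z (Real.exp (0.3525 * L)), (1 - Real.log q / (0.3525 * L)) *
          ∑ m ∈ A.filter (fun m => Sf z m ∧ dp q m), w m ≤
      8.3 * (X * V gp (PB 1 z)) + 5 * R := by
    have e1 := hmono (show (1 / 97 : ℝ) ≤ 0.2285 by norm_num)
    have e2 := hmono (show (0.2285 : ℝ) ≤ 0.265 by norm_num)
    have e3 := hmono (show (0.265 : ℝ) ≤ 0.297 by norm_num)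
    have e4 := hmono (show (0.297 : ℝ) ≤ 0.325 by norm_num)
    have e5 := hmono (show (0.325 : ℝ) ≤ 0.3525 by norm_num)
    rw [← hz] at e1
    rw [sum_PB_add _ (Real.exp_pos _).le e1 (e2.trans (e3.trans (e4.trans e5))),
      sum_PB_add _ (Real.exp_pos _).le e2 (e3.trans (e4.trans e5)),
      sum_PB_add _ (Real.exp_pos _).le e3 (e4.trans e5),
      sum_PB_add _ (Real.exp_pos _).le e4 e5]
    have eV : 0 < V gp (PB 1 z) := V3_pos fun q hq => (mem_filter.1 hq).2
    have eXV : 0 ≤ X * V gp (PB 1 z) := by positivity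
    have e6 := mul_le_mul_of_nonneg_right num_total eXV
    linarith
  have hV := hVl z (by linarith)
  have hV' : cV / L ^ 3 ≤ V gp (PB 1 z) := by
    refine le_trans ?_ hV
    rw [hlz]
    have h1 : (1 / 97 * L) ^ 3 ≤ L ^ 3 := by
      have : 1 / 97 * L ≤ L := by linarith
      gcongr
    exact div_le_div_of_nonneg_left hcV.le (by positivity) h1
  have hfin : 0.01 * cV * X / L ^ 3 ≤ 0.01 * (X * V gp (PB 1 z)) := by
    calc 0.01 * cV * X / L ^ 3 = 0.01 * (X * (cV / L ^ 3)) := by ring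
      _ ≤ _ := by gcongr
  have h20 := mul_le_mul_of_nonneg_left hsplit (by norm_num : (0 : ℝ) ≤ 20 / 169)
  have eV : 0 < V gp (PB 1 z) := V3_pos fun q hq => (mem_filter.1 hq).2
  have eXV : 0 ≤ X * V gp (PB 1 z) := by positivity
  have h21 : 0.998 * X * V gp (PB 1 z) = 0.998 * (X * V gp (PB 1 z)) := by ring
  rw [h21] at hlow
  have h22 : (20 / 169 : ℝ) * (8.3 * (X * V gp (PB 1 z)) + 5 * R) ≤
      0.983 * (X * V gp (PB 1 z)) + R := by nlinarith
  linarith

end

end Pool.Agent.Work.MP_40574a_nt.PA
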