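import Mathlib
import Pool.Agent.Work.MP_40574a_nt.PA.Weights
import Pool.Agent.Work.MP_40574a_nt.Almost

/-! # Module Few: few prime factors, and large square divisors

`G3 m = (m-2)(m+4)(m+10)` (natural subtraction). `few_factors3` as `Almost.few_factors` in `../Almost.lean`:
`∑_{q | G3 m} (1 - log q/(0.3525 L)) = ω - log(G3 m)/(0.3525 L)`, `log G3 m ≤ 3 (L + 0.1)`,
`3/0.3525 = 8.5107`, weight positive means the sum over `q ≤ y` is `< 8.45`; total `< 17`.
`sum_bad`: as `Almost.card_Bad` (classes `2, -4, -10` mod `q²`), weights `log p ≤ log x`. -/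

namespace Pool.Agent.Work.MP_40574a_nt.PA

open Finset BrunHooley Mertens

noncomputable section

/-- natural number version of `P3` -/
def G3 (m : ℕ) : ℕ := (m - 2) * (m + 4) * (m + 10)

lemma G3_cast {m : ℕ} (hm : 3 ≤ m) : (G3 m : ℤ) = P3 m := by
  unfold G3 P3
  push_cast [Nat.cast_sub (show 2 ≤ m by omega)]
  ring

lemma G3_pos {m : ℕ} (hm : 3 ≤ m) : 0 < G3 m := by
  unfold G3
  have : 0 < m - 2 := by omega
  positivity

lemma dp_iff {m : ℕ} (hm : 3 ≤ m) (q : ℕ) : dp q m ↔ q ∣ G3 m := by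
  unfold dp
  rw [← G3_cast hm, Int.natCast_dvd_natCast]

lemma G3_le {m : ℕ} : (G3 m : ℝ) ≤ ((m : ℝ) + 10) ^ 3 := by
  have h : G3 m ≤ (m + 10) ^ 3 := by
    unfold G3
    calc (m - 2) * (m + 4) * (m + 10) ≤ (m + 10) * (m + 10) * (m + 10) := by
          gcongr <;> omega
      _ = _ := by ring
  exact_mod_cast h

lemma few_factors3 : ∃ L0 : ℝ, 1 ≤ L0 ∧ ∀ L : ℝ, L0 ≤ L → ∀ m : ℕ, 3 ≤ m →
    (m : ℝ) + 10 ≤ Real.exp (L + 0.1) → Sf (Real.exp (1 / 97 * L)) m →
    (∀ q : ℕ, q.Prime → Real.exp (1 / 97 * L) < q → ¬ q * q ∣ G3 m) → 0 < Wt L m →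
    Squarefree (G3 m) ∧ ArithmeticFunction.cardFactors (G3 m) ≤ 16 ∧
      ∀ q : ℕ, q.Prime → q ∣ G3 m → Real.exp (1 / 97 * L) < q := by
  refine ⟨100, by norm_num, ?_⟩
  intro L hL m hm hmle hs hsq hW
  set z := Real.exp (1 / 97 * L) with hz
  set y := Real.exp (0.3525 * L) with hy
  have hly : Real.log y = 0.3525 * L := Real.log_exp _
  have hzpos : 0 < z := Real.exp_pos _
  have hypos : 0 < y := Real.exp_pos _
  have hbig : ∀ q : ℕ, q.Prime → q ∣ G3 m → z < q := by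
    intro q hq hqd
    by_contra hcon
    exact hs q hq (not_lt.1 hcon) ((dp_iff hm q).2 hqd)
  have hsf : Squarefree (G3 m) := by
    rw [Nat.squarefree_iff_prime_squarefree]
    intro q hq hqd
    exact hsq q hq (hbig q hq (dvd_of_mul_left_dvd hqd)) hqd
  refine ⟨hsf, ?_, hbig⟩
  rw [Almost.cardFactors_eq hsf]
  -- the sum over all prime factors
  have hGpos : (0 : ℝ) < G3 m := by exact_mod_cast G3_pos hm
  have hlogG : Real.log (G3 m) = ∑ q ∈ (G3 m).primeFactors, Real.log q := by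
    conv_lhs => rw [← Nat.prod_primeFactors_of_squarefree hsf]
    rw [Nat.cast_prod, Real.log_prod]
    intro q hq
    exact_mod_cast (Nat.prime_of_mem_primeFactors hq).ne_zero
  have hsum : ∑ q ∈ (G3 m).primeFactors, (1 - Real.log q / (0.3525 * L)) =
      ((G3 m).primeFactors.card : ℝ) - Real.log (G3 m) / (0.3525 * L) := by
    rw [sum_sub_distrib, sum_const, nsmul_eq_mul, mul_one, hlogG, sum_div]
  have hD : (PB z y).filter (fun q => dp q m) =
      (G3 m).primeFactors.filter (fun q : ℕ => (q : ℝ) ≤ y) := by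
    ext q
    rw [mem_filter, mem_filter, mem_PB hzpos.le hypos.le, Nat.mem_primeFactors, dp_iff hm]
    constructor
    · rintro ⟨⟨h1, h2, h3⟩, h4⟩
      exact ⟨⟨h1, h4, (G3_pos hm).ne'⟩, h3⟩
    · rintro ⟨⟨h1, h4, _⟩, h3⟩
      exact ⟨⟨h1, hbig q h1 h4, h3⟩, h4⟩
  have hle : ∑ q ∈ (G3 m).primeFactors, (1 - Real.log q / (0.3525 * L)) ≤
      ∑ q ∈ (PB z y).filter (fun q => dp q m), (1 - Real.log q / (0.3525 * L)) := by
    rw [hD, ← sum_filter_add_sum_filter_not (G3 m).primeFactors (fun q : ℕ => (q : ℝ) ≤ y)]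
    have : ∑ q ∈ (G3 m).primeFactors.filter (fun q : ℕ => ¬ (q : ℝ) ≤ y),
        (1 - Real.log q / (0.3525 * L)) ≤ 0 := by
      refine sum_nonpos fun q hq => ?_
      have hq2 := (mem_filter.1 hq).2
      push Not at hq2
      have h1 : Real.log y ≤ Real.log q := Real.log_le_log hypos hq2.le
      have h2 : 0 < 0.3525 * L := by positivity
      rw [sub_nonpos, le_div_iff₀ h2]
      linarith
    linarith
  have hW' : ∑ q ∈ (PB z y).filter (fun q => dp q m), (1 - Real.log q / (0.3525 * L)) < 8.45 := by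
    unfold Wt at hW
    rw [← hz, ← hy] at hW
    have e1 : (8.45 : ℝ) = 169 / 20 := by norm_num
    rw [e1]
    linarith
  have hlogGle : Real.log (G3 m) ≤ 3 * (L + 0.1) := by
    have h1 : Real.log (G3 m) ≤ Real.log ((Real.exp (L + 0.1)) ^ 3) := by
      refine Real.log_le_log hGpos (G3_le.trans ?_)
      gcongr
    have h2 : Real.log ((Real.exp (L + 0.1)) ^ 3) = 3 * (L + 0.1) := by
      rw [Real.log_pow, Real.log_exp]
      norm_num
    linarith
  have hratio : Real.log (G3 m) / (0.3525 * L) ≤ 8.54 := by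
    rw [div_le_iff₀ (by positivity)]
    nlinarith
  rw [hsum] at hle
  have hlt : ((G3 m).primeFactors.card : ℝ) < 17 := by
    have e1 : (8.45 : ℝ) + 8.54 < 17 := by norm_num
    linarith
  have : (G3 m).primeFactors.card < 17 := by exact_mod_cast hlt
  omega

lemma Wt_le_one {L : ℝ} (hL : 0 < L) (m : ℕ) : Wt L m ≤ 1 := by
  unfold Wt
  have h : 0 ≤ ∑ q ∈ (PB (Real.exp (1 / 97 * L)) (Real.exp (0.3525 * L))).filter (fun q => dp q m),
      (1 - Real.log q / (0.3525 * L)) := by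
    refine sum_nonneg fun q hq => ?_
    have hq1 := (mem_PB (Real.exp_pos _).le (Real.exp_pos _).le).1 (mem_filter.1 hq).1
    have hq0 : (0 : ℝ) < q := by exact_mod_cast hq1.1.pos
    have h1 : Real.log q ≤ 0.3525 * L := (Real.log_le_iff_le_exp hq0).2 hq1.2.2
    have h2 : 0 < 0.3525 * L := by positivity
    rw [sub_nonneg, div_le_one h2]
    exact h1
  linarith

lemma sq_dvd_factor3 {q m : ℕ} (hq : q.Prime) (hq12 : 12 < q) (hm : 3 ≤ m) (h : q * q ∣ G3 m) :
    q * q ∣ (m - 2) ∨ q * q ∣ (m + 4) ∨ q * q ∣ (m + 10) := by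
  have key : ∀ u v : ℕ, q ∣ u → u < v → v ≤ u + 12 → ¬ q ∣ v := by
    intro u v hu huv hv hv'
    have h1 : q ∣ v - u := Nat.dvd_sub hv' hu
    have h2 := Nat.le_of_dvd (by omega) h1
    omega
  have cop : ∀ u : ℕ, ¬ q ∣ u → Nat.Coprime (q * q) u := by
    intro u hu
    have := (Nat.Prime.coprime_iff_not_dvd hq).2 hu
    exact Nat.Coprime.mul_left this this
  unfold G3 at h
  have hqd : q ∣ (m - 2) * (m + 4) * (m + 10) := dvd_of_mul_left_dvd h
  rcases (Nat.Prime.dvd_mul hq).1 hqd with h1 | h1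
  · rcases (Nat.Prime.dvd_mul hq).1 h1 with h3 | h3
    · left
      have c2 := cop (m + 4) (key (m - 2) (m + 4) h3 (by omega) (by omega))
      have c3 := cop (m + 10) (key (m - 2) (m + 10) h3 (by omega) (by omega))
      exact c2.dvd_of_dvd_mul_right (c3.dvd_of_dvd_mul_right h)
    · right; left
      have c1 := cop (m - 2) (fun h' => key (m - 2) (m + 4) h' (by omega) (by omega) h3)
      have c3 := cop (m + 10) (key (m + 4) (m + 10) h3 (by omega) (by omega))
      exact c1.dvd_of_dvd_mul_left (c3.dvd_of_dvd_mul_right h)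
  · right; right
    have c1 := cop (m - 2) (fun h' => key (m - 2) (m + 10) h' (by omega) (by omega) h1)
    have c3 := cop (m + 4) (fun h' => key (m + 4) (m + 10) h' (by omega) (by omega) h1)
    exact (Nat.Coprime.mul_right c1 c3).dvd_of_dvd_mul_left h

open Classical in
lemma card_bad3 : ∃ C z0 : ℝ, 0 < C ∧ ∀ (z : ℝ) (y x : ℕ), z0 ≤ z → 3 ≤ y → y ≤ x →
    (((Ioc y x).filter (fun m => ∃ q : ℕ, q.Prime ∧ z < q ∧ q * q ∣ G3 m)).card : ℝ) ≤
      C * x / z + C * Real.sqrt x := by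
  refine ⟨48, 12, by norm_num, ?_⟩
  intro z y x hz hy hyx
  have hsub : (Ioc y x).filter (fun m => ∃ q : ℕ, q.Prime ∧ z < q ∧ q * q ∣ G3 m) ⊆
      Almost.Bad z 3 (x + 1) := by
    intro m hm
    rw [mem_filter, mem_Ioc] at hm
    obtain ⟨hm1, q, hq, hzq, hqd⟩ := hm
    unfold Almost.Bad
    rw [mem_filter, mem_Ico]
    refine ⟨by omega, q, hq, hzq, hqd.trans ?_⟩
    unfold G3 Almost.G
    exact ⟨m, by ring⟩
  have h1 := Almost.card_Bad hz (le_refl 3) (show 3 ≤ x + 1 by omega)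
  have h2 : (((Ioc y x).filter (fun m => ∃ q : ℕ, q.Prime ∧ z < q ∧ q * q ∣ G3 m)).card : ℝ) ≤
      ((Almost.Bad z 3 (x + 1)).card : ℝ) := by
    exact_mod_cast card_le_card hsub
  have hx3 : (3 : ℝ) ≤ x := by exact_mod_cast hy.trans hyx
  have hz0 : 0 < z := by linarith
  have h3 : 8 * (((x + 1 : ℕ) : ℝ) - (3 : ℕ)) / z ≤ 48 * x / z := by
    push_cast
    gcongr ?_ / _
    linarith
  have h4 : 4 * Real.sqrt (((x + 1 : ℕ) : ℝ) + 10) ≤ 48 * Real.sqrt x := by
    have h5 : Real.sqrt (((x + 1 : ℕ) : ℝ) + 10) ≤ Real.sqrt (5 ^ 2 * x) := by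
      apply Real.sqrt_le_sqrt
      push_cast
      linarith
    rw [Real.sqrt_mul (by norm_num), Real.sqrt_sq (by norm_num)] at h5
    have h6 := Real.sqrt_nonneg (x : ℝ)
    linarith
  linarith

end

end Pool.Agent.Work.MP_40574a_nt.PA
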