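import Mathlib
import Pool.Agent.Work.BV.Final
import Pool.Agent.Work.MP_40574a_nt.Mertens

/-! # Module Level: Bombieri-Vinogradov with weights `3^ω(e)`, for primes in `(y, x]`

`Er y x e c ≤ |psiA e c x - psi x/φ(e)| + |psiA e c y - psi y/φ(e)| + (psi - theta)(x)`; prime powers:
`psi x - theta x ≤ C √x`. With `bombieri_vinogradov B` at `x` and at `y`. Trivial bound:
`Er ≤ 2 x log x/φ(e)`. Cauchy-Schwarz with `∑_{e ≤ Q squarefree} 9^ω(e)/φ(e) ≤ C (log x)^9`
by `Mertens.mertens_second`, `B = 2A + 10`. -/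

namespace Pool.Agent.Work.MP_40574a_nt.PA

open Finset Mertens
open scoped ArithmeticFunction.vonMangoldt

noncomputable section

/-- error in the class `c` mod `e` for the primes in `(y,x]`, with logarithmic weights -/
def Er (y x e c : ℕ) : ℝ :=
  |∑ p ∈ ((Ioc y x).filter Nat.Prime).filter (fun p => p ≡ c [MOD e]), Real.log p -
    (∑ p ∈ (Ioc y x).filter Nat.Prime, Real.log p) / e.totient|

/-- the sum of `Λ` over the proper prime powers `≤ x` -/
def LevelD (x : ℕ) : ℝ := ∑ n ∈ Ioc 0 x, if n.Prime then 0 else Λ n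

lemma Level_D : ∃ C : ℝ, 0 < C ∧ ∀ x : ℕ, LevelD x ≤ C * (x : ℝ) ^ (1 / 2 : ℝ) := by
  obtain ⟨C, hC⟩ := Chebyshev.psi_sub_theta_le_mul_sqrt
  refine ⟨max C 1, by positivity, fun x => ?_⟩
  have h := hC x
  rw [Chebyshev.psi_sub_theta_eq_sum_not_prime, Nat.floor_natCast, sum_filter,
    Real.sqrt_eq_rpow] at h
  have e : LevelD x = ∑ n ∈ Ioc 0 x, if ¬ n.Prime then Λ n else 0 := by
    unfold LevelD
    refine sum_congr rfl fun n _ => ?_
    by_cases hn : n.Prime <;> simp [hn]
  rw [e]
  refine h.trans ?_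
  have : (0 : ℝ) ≤ (x : ℝ) ^ (1 / 2 : ℝ) := by positivity
  exact mul_le_mul_of_nonneg_right (le_max_left _ _) this

lemma Level_D_nonneg (x : ℕ) : 0 ≤ LevelD x := by
  unfold LevelD
  refine sum_nonneg fun n _ => ?_
  split_ifs
  · exact le_rfl
  · exact ArithmeticFunction.vonMangoldt_nonneg

lemma Level_psiA (y x e c : ℕ) (hyx : y ≤ x) :
    BV.psiA e c x - BV.psiA e c y = ∑ n ∈ Ioc y x, if n ≡ c [MOD e] then Λ n else 0 := by
  have h : ∀ x : ℕ, BV.psiA e c x = ∑ n ∈ Ioc 0 x, if n ≡ c [MOD e] then Λ n else 0 := by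
    intro x
    unfold BV.psiA
    rw [sum_filter]
    refine sum_congr ?_ fun _ _ => rfl
    ext n; simp only [mem_Icc, mem_Ioc]; omega
  rw [h, h, ← sum_Ioc_consecutive _ (Nat.zero_le y) hyx]
  ring

lemma Level_psi (y x : ℕ) (hyx : y ≤ x) :
    BV.psi x - BV.psi y = ∑ n ∈ Ioc y x, Λ n := by
  have h : ∀ x : ℕ, BV.psi x = ∑ n ∈ Ioc 0 x, Λ n := by
    intro x
    unfold BV.psi
    refine sum_congr ?_ fun _ _ => rfl
    ext n; simp only [mem_Icc, mem_Ioc]; omega
  rw [h, h, ← sum_Ioc_consecutive _ (Nat.zero_le y) hyx]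
  ring

lemma Level_Er (y x e c : ℕ) (hyx : y ≤ x) (he : 1 ≤ e) :
    Er y x e c ≤ |BV.psiA e c x - BV.psi x / e.totient| +
      |BV.psiA e c y - BV.psi y / e.totient| + LevelD x := by
  have hφ : (1 : ℝ) ≤ e.totient := by exact_mod_cast Nat.totient_pos.2 he
  set NA : ℝ := ∑ n ∈ Ioc y x, if n ≡ c [MOD e] then (if n.Prime then 0 else Λ n) else 0 with hNA
  set N : ℝ := ∑ n ∈ Ioc y x, if n.Prime then 0 else Λ n with hN
  have h0 : ∀ n : ℕ, 0 ≤ (if n.Prime then 0 else Λ n : ℝ) := by
    intro n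
    split_ifs
    · exact le_rfl
    · exact ArithmeticFunction.vonMangoldt_nonneg
  have hNA0 : 0 ≤ NA := by
    refine sum_nonneg fun n _ => ?_
    by_cases h : n ≡ c [MOD e]
    · rw [if_pos h]; exact h0 n
    · rw [if_neg h]
  have hNAN : NA ≤ N := by
    refine sum_le_sum fun n _ => ?_
    by_cases h : n ≡ c [MOD e]
    · rw [if_pos h]
    · rw [if_neg h]; exact h0 n
  have hND : N ≤ LevelD x := by
    unfold LevelD
    refine sum_le_sum_of_subset_of_nonneg ?_ fun n _ _ => h0 n
    intro n hn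
    rw [mem_Ioc] at hn ⊢
    omega
  have e1 : ∑ p ∈ ((Ioc y x).filter Nat.Prime).filter (fun p => p ≡ c [MOD e]), Real.log p =
      (BV.psiA e c x - BV.psiA e c y) - NA := by
    rw [Level_psiA y x e c hyx, hNA, ← sum_sub_distrib, filter_filter, sum_filter]
    refine sum_congr rfl fun n _ => ?_
    by_cases h1 : n ≡ c [MOD e]
    · by_cases h2 : n.Prime
      · simp [h1, h2, ArithmeticFunction.vonMangoldt_apply_prime h2]
      · simp [h1, h2]
    · simp [h1]
  have e2 : ∑ p ∈ (Ioc y x).filter Nat.Prime, Real.log p = (BV.psi x - BV.psi y) - N := by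
    rw [Level_psi y x hyx, hN, ← sum_sub_distrib, sum_filter]
    refine sum_congr rfl fun n _ => ?_
    by_cases h2 : n.Prime
    · simp [h2, ArithmeticFunction.vonMangoldt_apply_prime h2]
    · simp [h2]
  unfold Er
  rw [e1, e2]
  have e3 : BV.psiA e c x - BV.psiA e c y - NA - (BV.psi x - BV.psi y - N) / e.totient =
      (BV.psiA e c x - BV.psi x / e.totient) - (BV.psiA e c y - BV.psi y / e.totient) -
        (NA - N / e.totient) := by ring
  rw [e3]
  refine (abs_sub _ _).trans (add_le_add ((abs_sub _ _).trans le_rfl) ?_)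
  have b1 : N / e.totient ≤ N := div_le_self (hNA0.trans hNAN) hφ
  have b2 : 0 ≤ N / e.totient := by have := hNA0.trans hNAN; positivity
  rw [abs_le]
  constructor <;> linarith

lemma Level_triv (y x e c : ℕ) (he : 1 ≤ e) (hex : e ≤ x) (hx : 1 ≤ x) :
    Er y x e c ≤ 2 * x * Real.log x / e.totient := by
  have hφ : (1 : ℝ) ≤ e.totient := by exact_mod_cast Nat.totient_pos.2 he
  have hx1 : (1 : ℝ) ≤ x := by exact_mod_cast hx
  have he0 : (0 : ℝ) < e := by exact_mod_cast he
  have hlx : 0 ≤ Real.log x := Real.log_nonneg hx1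
  have hlog : ∀ p ∈ Ioc y x, Real.log p ≤ Real.log x := by
    intro p hp
    rw [mem_Ioc] at hp
    refine Real.log_le_log ?_ ?_
    · exact_mod_cast (by omega : 0 < p)
    · exact_mod_cast hp.2
  have hlog0 : ∀ p : ℕ, 0 ≤ Real.log p := fun p => Real.log_natCast_nonneg p
  have hφe : (e.totient : ℝ) ≤ e := by exact_mod_cast Nat.totient_le e
  have h1 : ∑ p ∈ ((Ioc y x).filter Nat.Prime).filter (fun p => p ≡ c [MOD e]), Real.log p ≤
      2 * x * Real.log x / e.totient := by
    calc ∑ p ∈ ((Ioc y x).filter Nat.Prime).filter (fun p => p ≡ c [MOD e]), Real.log p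
        ≤ ∑ p ∈ (Ioc 0 x).filter (fun p => p ≡ c [MOD e]), Real.log x := by
          refine le_trans (sum_le_sum_of_subset_of_nonneg
            (t := (Ioc 0 x).filter (fun p => p ≡ c [MOD e])) ?_ fun p _ _ => hlog0 p) ?_
          · intro p hp
            rw [mem_filter, mem_filter, mem_Ioc] at hp
            rw [mem_filter, mem_Ioc]
            exact ⟨⟨by omega, hp.1.1.2⟩, hp.2⟩
          · refine sum_le_sum fun p hp => ?_
            rw [mem_filter, mem_Ioc] at hp
            refine Real.log_le_log ?_ ?_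
            · exact_mod_cast hp.1.1
            · exact_mod_cast hp.1.2
      _ = ((Ioc 0 x).filter (fun p => p ≡ c [MOD e])).card * Real.log x := by
          rw [sum_const, nsmul_eq_mul]
      _ ≤ (2 * x / e) * Real.log x := by
          refine mul_le_mul_of_nonneg_right ?_ hlx
          have h2 : (((Ioc 0 x).filter (fun p => p ≡ c [MOD e])).card : ℝ) ≤ x / e + 1 := by
            have h3 := Nat.Ioc_filter_modEq_card 0 x (r := e) he c
            have h4 : (((Ioc 0 x).filter (fun p => p ≡ c [MOD e])).card : ℝ) =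
                ((max (⌊((x : ℚ) - c) / e⌋ - ⌊((0 : ℕ) - c : ℚ) / e⌋) 0 : ℤ) : ℝ) := by
              rw [← h3]; push_cast; rfl
            rw [h4]
            push_cast
            refine max_le ?_ (by positivity)
            have a1 := Int.floor_le (((x : ℚ) - c) / e)
            have a2 := Int.lt_floor_add_one (((0 : ℕ) - c : ℚ) / e)
            have a3 : ((⌊((x : ℚ) - c) / e⌋ : ℤ) : ℝ) ≤ ((x : ℝ) - c) / e := by
              have := (Rat.cast_le (K := ℝ)).2 a1
              push_cast at this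
              exact this
            have a4 : ((0 : ℝ) - c) / e ≤ ((⌊((0 : ℕ) - c : ℚ) / e⌋ : ℤ) : ℝ) + 1 := by
              have := (Rat.cast_le (K := ℝ)).2 a2.le
              push_cast at this
              exact this
            push_cast at a3 a4 ⊢
            have a5 : ((x : ℝ) - c) / e = x / e + (0 - c) / e := by ring
            rw [a5] at a3
            linarith
          have h5 : (1 : ℝ) ≤ x / e := by
            rw [le_div_iff₀ he0]
            rw [one_mul]
            exact_mod_cast hex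
          calc (((Ioc 0 x).filter (fun p => p ≡ c [MOD e])).card : ℝ) ≤ x / e + 1 := h2
            _ ≤ x / e + x / e := by linarith
            _ = 2 * x / e := by ring
      _ = 2 * x * Real.log x / e := by ring
      _ ≤ 2 * x * Real.log x / e.totient :=
          div_le_div_of_nonneg_left (by positivity) (by linarith) hφe
  have h1' : 0 ≤ ∑ p ∈ ((Ioc y x).filter Nat.Prime).filter (fun p => p ≡ c [MOD e]),
      Real.log p := sum_nonneg fun p _ => hlog0 p
  have h2 : (∑ p ∈ (Ioc y x).filter Nat.Prime, Real.log p) / e.totient ≤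
      2 * x * Real.log x / e.totient := by
    refine div_le_div_of_nonneg_right ?_ (by linarith)
    calc ∑ p ∈ (Ioc y x).filter Nat.Prime, Real.log p ≤ ∑ p ∈ Ioc y x, Real.log x := by
          refine le_trans (sum_le_sum_of_subset_of_nonneg (filter_subset _ _)
            fun p _ _ => hlog0 p) (sum_le_sum hlog)
      _ = ((x - y : ℕ) : ℝ) * Real.log x := by
          rw [sum_const, Nat.card_Ioc, nsmul_eq_mul]
      _ ≤ (2 * x) * Real.log x := by
          refine mul_le_mul_of_nonneg_right ?_ hlx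
          have : ((x - y : ℕ) : ℝ) ≤ x := by exact_mod_cast Nat.sub_le _ _
          linarith
  have h2' : 0 ≤ (∑ p ∈ (Ioc y x).filter Nat.Prime, Real.log p) / e.totient :=
    div_nonneg (sum_nonneg fun p _ => hlog0 p) (by linarith)
  unfold Er
  rw [abs_le]
  constructor <;> linarith

/-- `∑_{e ≤ Q squarefree} 9^ω(e)/φ(e) ≤ K (log x)^9` for `Q ≤ x` -/
lemma Level_nine : ∃ K : ℝ, 0 < K ∧ ∀ x Q : ℕ, 3 ≤ x → Q ≤ x →
    ∑ e ∈ (Icc 1 Q).filter Squarefree, (9 : ℝ) ^ e.primeFactors.card / e.totient ≤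
      K * (Real.log x) ^ 9 := by
  obtain ⟨C, hC, hM⟩ := MP_40574a_nt.Mertens.mertens_second
  have hl2 : 0 < Real.log 2 := Real.log_pos (by norm_num)
  refine ⟨Real.exp (9 * (3 / 2 + C / Real.log 2)) / (Real.log 2) ^ 9, by positivity, ?_⟩
  intro x Q hx hQ
  have hxR : (3 : ℝ) ≤ x := by exact_mod_cast hx
  have hlx : 0 < Real.log x := Real.log_pos (by linarith)
  set P : Finset ℕ := (Icc 1 x).filter Nat.Prime with hP
  set f : ℕ → ℝ := fun q => 9 / ((q : ℝ) - 1) with hf
  have hf0 : ∀ q ∈ P, 0 ≤ f q := by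
    intro q hq
    have h2 : (2 : ℝ) ≤ q := by exact_mod_cast (mem_filter.1 hq).2.two_le
    exact div_nonneg (by norm_num) (by linarith)
  have h1 : ∑ e ∈ (Icc 1 Q).filter Squarefree, (9 : ℝ) ^ e.primeFactors.card / e.totient ≤
      ∑ T ∈ P.powerset, ∏ q ∈ T, f q := by
    have e1 : ∀ e ∈ (Icc 1 Q).filter Squarefree, (9 : ℝ) ^ e.primeFactors.card / e.totient =
        ∏ q ∈ e.primeFactors, f q := by
      intro e he
      have hsq := (mem_filter.1 he).2
      have h2 : (e.totient : ℝ) = ∏ q ∈ e.primeFactors, ((q : ℝ) - 1) := by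
        have h3 : e.totient = ∏ q ∈ e.primeFactors, (q - 1) := by
          rw [Nat.totient_eq_prod_factorization hsq.ne_zero, Finsupp.prod]
          rw [Nat.support_factorization]
          refine prod_congr rfl fun q hq => ?_
          have hq' := Nat.prime_of_mem_primeFactors hq
          have h4 : e.factorization q = 1 := by
            have h5 := hsq.natFactorization_le_one q
            have h6 : e.factorization q ≠ 0 := by
              rw [← Finsupp.mem_support_iff, Nat.support_factorization]; exact hq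
            omega
          rw [h4]; simp
        rw [h3]
        push_cast
        refine prod_congr rfl fun q hq => ?_
        have hq' := Nat.prime_of_mem_primeFactors hq
        rw [Nat.cast_sub hq'.one_le]; simp
      rw [h2, ← prod_const, ← prod_div_distrib]
    rw [sum_congr rfl e1]
    have hinj : Set.InjOn (fun e : ℕ => e.primeFactors)
        (((Icc 1 Q).filter Squarefree : Finset ℕ) : Set ℕ) := by
      intro a ha b hb hab
      have ha' := (mem_filter.1 (mem_coe.1 ha)).2
      have hb' := (mem_filter.1 (mem_coe.1 hb)).2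
      rw [← Nat.prod_primeFactors_of_squarefree ha', ← Nat.prod_primeFactors_of_squarefree hb']
      simp only at hab
      rw [hab]
    rw [← sum_image (f := fun T : Finset ℕ => ∏ q ∈ T, f q) hinj]
    refine sum_le_sum_of_subset_of_nonneg ?_ ?_
    · intro T hT
      obtain ⟨e, he, rfl⟩ := mem_image.1 hT
      rw [mem_powerset]
      intro q hq
      have he' := mem_Icc.1 (mem_filter.1 he).1
      have hq' := Nat.prime_of_mem_primeFactors hq
      have hle := Nat.le_of_mem_primeFactors hq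
      rw [hP, mem_filter, mem_Icc]
      exact ⟨⟨hq'.one_le, by omega⟩, hq'⟩
    · intro T hT _
      exact prod_nonneg fun q hq => hf0 q (mem_powerset.1 hT hq)
  have h2 : ∑ T ∈ P.powerset, ∏ q ∈ T, f q = ∏ q ∈ P, (1 + f q) := by
    rw [prod_one_add]
  have h3 : ∏ q ∈ P, (1 + f q) ≤ Real.exp (∑ q ∈ P, f q) := by
    rw [Real.exp_sum]
    refine prod_le_prod (fun q hq => by have := hf0 q hq; linarith) fun q hq => ?_
    rw [add_comm]
    exact Real.add_one_le_exp _
  have h4 : ∑ q ∈ P, f q ≤ 9 * (3 / 2 + C / Real.log 2 +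
      Real.log (Real.log x / Real.log 2)) := by
    have h5 : ∑ q ∈ P, f q = 9 * (∑ q ∈ P, (1 : ℝ) / q + ∑ q ∈ P, (1 : ℝ) / (q * (q - 1))) := by
      rw [← sum_add_distrib, mul_sum]
      refine sum_congr rfl fun q hq => ?_
      have h2 : (2 : ℝ) ≤ q := by exact_mod_cast (mem_filter.1 hq).2.two_le
      have h6 : (q : ℝ) - 1 ≠ 0 := by linarith
      have h7 : (q : ℝ) ≠ 0 := by linarith
      simp only [hf]
      field_simp
      ring
    have h6 : ∑ q ∈ P, (1 : ℝ) / q ≤ 1 / 2 + (Real.log (Real.log x / Real.log 2) +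
        C / Real.log 2) := by
      have h7 := hM 2 x le_rfl (by linarith)
      have h8 : P ⊆ insert 2 (PB 2 x) := by
        intro q hq
        rw [hP, mem_filter, mem_Icc] at hq
        rw [mem_insert, mem_PB (by norm_num) (by linarith)]
        rcases hq.2.two_le.lt_or_eq with h | h
        · right
          refine ⟨hq.2, by exact_mod_cast h, by exact_mod_cast hq.1.2⟩
        · exact Or.inl h.symm
      have h9 : (2 : ℕ) ∉ PB 2 (x : ℝ) := by
        rw [mem_PB (by norm_num) (by linarith)]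
        rintro ⟨_, h, _⟩
        norm_num at h
      calc ∑ q ∈ P, (1 : ℝ) / q ≤ ∑ q ∈ insert 2 (PB 2 x), (1 : ℝ) / q :=
            sum_le_sum_of_subset_of_nonneg h8 fun _ _ _ => by positivity
        _ = 1 / 2 + ∑ q ∈ PB 2 x, (1 : ℝ) / q := by
            rw [sum_insert h9]; norm_num
        _ ≤ _ := by linarith
    have h7 : ∑ q ∈ P, (1 : ℝ) / (q * (q - 1)) ≤ 1 := by
      have h8 : ∀ N : ℕ, 1 ≤ N → ∑ n ∈ Icc 2 N, (1 : ℝ) / (n * (n - 1)) = 1 - 1 / N := by
        intro N hN
        induction N, hN using Nat.le_induction with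
        | base => simp
        | succ N hN ih =>
          rw [sum_Icc_succ_top (by omega), ih]
          have h0 : (N : ℝ) ≠ 0 := by positivity
          have h0' : (N : ℝ) + 1 ≠ 0 := by positivity
          push_cast
          rw [add_sub_cancel_right]
          field_simp
          ring
      have h9 : P ⊆ Icc 2 x := by
        intro q hq
        rw [hP, mem_filter, mem_Icc] at hq
        rw [mem_Icc]
        exact ⟨hq.2.two_le, hq.1.2⟩
      calc ∑ q ∈ P, (1 : ℝ) / (q * (q - 1)) ≤ ∑ q ∈ Icc 2 x, (1 : ℝ) / (q * (q - 1)) := by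
            refine sum_le_sum_of_subset_of_nonneg h9 fun q hq _ => ?_
            have : (2 : ℝ) ≤ q := by exact_mod_cast (mem_Icc.1 hq).1
            refine div_nonneg zero_le_one (mul_nonneg (by linarith) (by linarith))
        _ = 1 - 1 / x := h8 x (by omega)
        _ ≤ 1 := by
            have : (0 : ℝ) ≤ 1 / x := by positivity
            linarith
    rw [h5]
    linarith
  calc ∑ e ∈ (Icc 1 Q).filter Squarefree, (9 : ℝ) ^ e.primeFactors.card / e.totient
      ≤ Real.exp (∑ q ∈ P, f q) := h1.trans (h2.le.trans h3)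
    _ ≤ Real.exp (9 * (3 / 2 + C / Real.log 2 + Real.log (Real.log x / Real.log 2))) :=
        Real.exp_le_exp.2 h4
    _ = Real.exp (9 * (3 / 2 + C / Real.log 2)) * (Real.log x / Real.log 2) ^ 9 := by
        rw [mul_add 9 (3 / 2 + C / Real.log 2), Real.exp_add]
        congr 1
        rw [show (9 : ℝ) * Real.log (Real.log x / Real.log 2) =
          ((9 : ℕ) : ℝ) * Real.log (Real.log x / Real.log 2) by norm_num, Real.exp_nat_mul,
          Real.exp_log (by positivity)]
    _ = _ := by rw [div_pow]; ring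

theorem level (A : ℕ) : ∃ C : ℝ, 0 < C ∧ ∀ (y x Q : ℕ) (c : ℕ → ℕ), 3 ≤ y → y ≤ x → x ≤ 2 * y →
    (Q : ℝ) ≤ (y : ℝ) ^ (9 / 20 : ℝ) → (∀ e ∈ Icc 1 Q, (c e).Coprime e) →
    ∑ e ∈ (Icc 1 Q).filter Squarefree, 3 ^ e.primeFactors.card * Er y x e (c e) ≤
      C * x / (Real.log x) ^ A := by
  set B : ℕ := 2 * A + 10 with hB
  obtain ⟨C₁, hC₁, h1⟩ := BV.bombieri_vinogradov B
  obtain ⟨C₂, hC₂, h2⟩ := Level_D
  obtain ⟨K, hK, h3⟩ := Level_nine
  set L₀ : ℝ := (100 * (B : ℕ) : ℝ) ^ B with hL₀
  have hL₀0 : 0 < L₀ := by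
    rw [hL₀, hB]; positivity
  set C₃ : ℝ := C₁ + 2 ^ B * C₁ + C₂ * L₀ with hC₃
  have hC₃0 : 0 < C₃ := by positivity
  refine ⟨Real.sqrt (2 * K * C₃), by positivity, ?_⟩
  intro y x Q c hy hyx hxy hQ hc
  have hx3 : 3 ≤ x := by omega
  have hyR : (3 : ℝ) ≤ y := by exact_mod_cast hy
  have hxR : (3 : ℝ) ≤ x := by exact_mod_cast hx3
  have hyxR : (y : ℝ) ≤ x := by exact_mod_cast hyx
  have hx0 : (0 : ℝ) < x := by linarith
  have hx1 : (1 : ℝ) ≤ x := by linarith
  set L : ℝ := Real.log x with hL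
  have hL0 : 0 < L := Real.log_pos (by linarith)
  have hly : L ≤ 2 * Real.log y := by
    have a1 : L ≤ Real.log (2 * y) := by
      refine Real.log_le_log hx0 ?_
      exact_mod_cast hxy
    rw [Real.log_mul (by norm_num) (by linarith)] at a1
    have a2 : Real.log 2 ≤ Real.log y := Real.log_le_log (by norm_num) (by linarith)
    linarith
  have hQx' : (Q : ℝ) ≤ (x : ℝ) ^ (9 / 20 : ℝ) :=
    hQ.trans (Real.rpow_le_rpow (by linarith) hyxR (by norm_num))
  have hQx : Q ≤ x := by
    have h1 : (Q : ℝ) ≤ x := by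
      refine hQx'.trans ?_
      calc (x : ℝ) ^ (9 / 20 : ℝ) ≤ (x : ℝ) ^ (1 : ℝ) :=
            Real.rpow_le_rpow_of_exponent_le hx1 (by norm_num)
        _ = x := Real.rpow_one _
    exact_mod_cast h1
  have hE0 : ∀ e, 0 ≤ Er y x e (c e) := fun e => abs_nonneg _
  -- first moment
  have m1 : ∑ e ∈ (Icc 1 Q).filter Squarefree, Er y x e (c e) ≤ C₃ * x / L ^ B := by
    calc ∑ e ∈ (Icc 1 Q).filter Squarefree, Er y x e (c e)
        ≤ ∑ e ∈ Icc 1 Q, Er y x e (c e) :=
          sum_le_sum_of_subset_of_nonneg (filter_subset _ _) fun e _ _ => hE0 e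
      _ ≤ ∑ e ∈ Icc 1 Q, (|BV.psiA e (c e) x - BV.psi x / e.totient| +
            |BV.psiA e (c e) y - BV.psi y / e.totient| + LevelD x) :=
          sum_le_sum fun e he => Level_Er y x e (c e) hyx (mem_Icc.1 he).1
      _ = ∑ e ∈ Icc 1 Q, |BV.psiA e (c e) x - BV.psi x / e.totient| +
            ∑ e ∈ Icc 1 Q, |BV.psiA e (c e) y - BV.psi y / e.totient| + Q * LevelD x := by
          rw [sum_add_distrib, sum_add_distrib, sum_const, Nat.card_Icc, nsmul_eq_mul]
          simp
      _ ≤ C₁ * x / L ^ B + 2 ^ B * C₁ * x / L ^ B + C₂ * L₀ * x / L ^ B := by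
          refine add_le_add (add_le_add (h1 x Q c hx3 hQx' hc) ?_) ?_
          · refine (h1 y Q c hy hQ hc).trans ?_
            have hly0 : 0 < Real.log y := by linarith
            rw [div_le_div_iff₀ (by positivity) (by positivity)]
            calc C₁ * y * L ^ B ≤ C₁ * x * (2 * Real.log y) ^ B := by
                  gcongr
              _ = 2 ^ B * C₁ * x * Real.log y ^ B := by rw [mul_pow]; ring
          · rw [le_div_iff₀ (by positivity)]
            have a1 := BV.high_log_pow B (by omega) x hx1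
            rw [← hL, ← hL₀] at a1
            calc (Q : ℝ) * LevelD x * L ^ B
                ≤ (x : ℝ) ^ (9 / 20 : ℝ) * (C₂ * (x : ℝ) ^ (1 / 2 : ℝ)) *
                  (L₀ * (x : ℝ) ^ (1 / 100 : ℝ)) := by
                  have := Level_D_nonneg x
                  gcongr
                  exact h2 x
              _ = C₂ * L₀ * ((x : ℝ) ^ (9 / 20 : ℝ) * (x : ℝ) ^ (1 / 2 : ℝ) *
                  (x : ℝ) ^ (1 / 100 : ℝ)) := by ring
              _ ≤ C₂ * L₀ * x := by
                  refine mul_le_mul_of_nonneg_left ?_ (by positivity)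
                  rw [← Real.rpow_add hx0, ← Real.rpow_add hx0]
                  calc (x : ℝ) ^ (9 / 20 + 1 / 2 + 1 / 100 : ℝ) ≤ (x : ℝ) ^ (1 : ℝ) :=
                        Real.rpow_le_rpow_of_exponent_le hx1 (by norm_num)
                    _ = x := Real.rpow_one _
      _ = C₃ * x / L ^ B := by rw [hC₃]; ring
  -- trivial bound for the weighted sum
  have m2 : ∑ e ∈ (Icc 1 Q).filter Squarefree, (9 : ℝ) ^ e.primeFactors.card * Er y x e (c e) ≤
      2 * K * x * L ^ 10 := by
    calc ∑ e ∈ (Icc 1 Q).filter Squarefree, (9 : ℝ) ^ e.primeFactors.card * Er y x e (c e)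
        ≤ ∑ e ∈ (Icc 1 Q).filter Squarefree,
            (2 * x * L) * ((9 : ℝ) ^ e.primeFactors.card / e.totient) := by
          refine sum_le_sum fun e he => ?_
          have he' := mem_Icc.1 (mem_filter.1 he).1
          have a1 := Level_triv y x e (c e) he'.1 (by omega) (by omega)
          calc (9 : ℝ) ^ e.primeFactors.card * Er y x e (c e)
              ≤ (9 : ℝ) ^ e.primeFactors.card * (2 * x * Real.log x / e.totient) :=
                mul_le_mul_of_nonneg_left a1 (by positivity)
            _ = _ := by rw [hL]; ring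
      _ = (2 * x * L) * ∑ e ∈ (Icc 1 Q).filter Squarefree,
            (9 : ℝ) ^ e.primeFactors.card / e.totient := by rw [mul_sum]
      _ ≤ (2 * x * L) * (K * L ^ 9) :=
          mul_le_mul_of_nonneg_left (h3 x Q hx3 hQx) (by positivity)
      _ = _ := by ring
  have hS0 : 0 ≤ ∑ e ∈ (Icc 1 Q).filter Squarefree, 3 ^ e.primeFactors.card * Er y x e (c e) :=
    sum_nonneg fun e _ => mul_nonneg (by positivity) (hE0 e)
  have cs : ∑ e ∈ (Icc 1 Q).filter Squarefree, 3 ^ e.primeFactors.card * Er y x e (c e) ≤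
      Real.sqrt (∑ e ∈ (Icc 1 Q).filter Squarefree,
        (9 : ℝ) ^ e.primeFactors.card * Er y x e (c e)) *
      Real.sqrt (∑ e ∈ (Icc 1 Q).filter Squarefree, Er y x e (c e)) := by
    refine le_trans (le_of_eq ?_) (Real.sum_sqrt_mul_sqrt_le _
      (fun e => mul_nonneg (by positivity) (hE0 e)) hE0)
    refine sum_congr rfl fun e _ => ?_
    rw [Real.sqrt_mul (by positivity), mul_assoc, Real.mul_self_sqrt (hE0 e)]
    congr 1
    rw [show (9 : ℝ) ^ e.primeFactors.card = (3 ^ e.primeFactors.card) ^ 2 by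
      rw [← pow_mul, mul_comm, pow_mul]; norm_num]
    rw [Real.sqrt_sq (by positivity)]
  refine cs.trans ?_
  calc Real.sqrt (∑ e ∈ (Icc 1 Q).filter Squarefree,
        (9 : ℝ) ^ e.primeFactors.card * Er y x e (c e)) *
      Real.sqrt (∑ e ∈ (Icc 1 Q).filter Squarefree, Er y x e (c e))
      ≤ Real.sqrt (2 * K * x * L ^ 10) * Real.sqrt (C₃ * x / L ^ B) := by
        gcongr
    _ = Real.sqrt ((2 * K * C₃) * (x / L ^ A) ^ 2) := by
        rw [← Real.sqrt_mul (by positivity)]
        congr 1
        rw [hB, pow_add, mul_comm 2 A, pow_mul, div_pow]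
        field_simp
    _ = Real.sqrt (2 * K * C₃) * (x / L ^ A) := by
        rw [Real.sqrt_mul (by positivity), Real.sqrt_sq (by positivity)]
    _ = _ := by ring

end

end Pool.Agent.Work.MP_40574a_nt.PA
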