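import Mathlib
import Pool.Agent.Work.MP_40574a_nt.PA.Sieve
import Pool.Agent.Work.MP_40574a_nt.PA.Dens

/-! # Module Rem: the remainders of the sieve in terms of errors in residue classes

`rem_classes`: induction on `S` exactly as `Count.count_classes` in `../Count.lean` (same splitting by the residue
`m % q`, Chinese remainder `Nat.chineseRemainder`), now with weights, with the residues `r ∈ Rp q` (the elements `m`
of `A` are coprime to `q`, so `m % q` is), totients instead of moduli (`Nat.totient_mul`), and the same `ε` for all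
classes. `rem_le` is the case `D = 1`. -/

namespace Pool.Agent.Work.MP_40574a_nt.PA

open Finset

noncomputable section

theorem rem_classes (A : Finset ℕ) (w : ℕ → ℝ) (X ε : ℝ) (S : Finset ℕ) :
    (∀ q ∈ S, q.Prime) → (∀ m ∈ A, ∀ q ∈ S, m.Coprime q) →
    ∀ D : ℕ, 0 < D → (∀ q ∈ S, Nat.Coprime D q) → ∀ r : ℕ, r.Coprime D →
    (∀ c : ℕ, c.Coprime (D * ∏ q ∈ S, q) →
      |∑ m ∈ A.filter (fun m => m ≡ c [MOD (D * ∏ q ∈ S, q)]), w m -
        X / (D * ∏ q ∈ S, q).totient| ≤ ε) →
    |∑ m ∈ A.filter (fun m => m ≡ r [MOD D] ∧ ∀ q ∈ S, dp q m), w m -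
      X / D.totient * ∏ q ∈ S, gp q| ≤ (∏ q ∈ S, ((Rp q).card : ℝ)) * ε := by
  induction S using Finset.induction_on with
  | empty =>
    intro _ _ D hD _ r hr h
    have h1 := h r (by simpa using hr)
    simpa using h1
  | insert q S hq ih =>
    intro hS hA D hD hco r hr h
    have hSp : ∀ q ∈ S, q.Prime := fun q' h => hS q' (mem_insert_of_mem h)
    have hAS : ∀ m ∈ A, ∀ q ∈ S, m.Coprime q := fun m hm q' h => hA m hm q' (mem_insert_of_mem h)
    have hqp : q.Prime := hS q (mem_insert_self _ _)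
    have hcoq : Nat.Coprime D q := hco q (mem_insert_self _ _)
    have hDq : 0 < D * q := Nat.mul_pos hD hqp.pos
    have hcoS : ∀ q' ∈ S, Nat.Coprime (D * q) q' := by
      intro q' h
      refine Nat.Coprime.mul_left (hco q' (mem_insert_of_mem h)) ?_
      rw [Nat.coprime_primes hqp (hSp q' h)]
      rintro rfl
      exact hq h
    -- split according to the residue mod `q`
    have hsplit : ∑ m ∈ A.filter (fun m => m ≡ r [MOD D] ∧ ∀ q' ∈ insert q S, dp q' m), w m =
        ∑ ρ ∈ Rp q, ∑ m ∈ A.filter (fun m =>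
          m ≡ (Nat.chineseRemainder hcoq r ρ : ℕ) [MOD (D * q)] ∧ ∀ q' ∈ S, dp q' m), w m := by
      rw [← sum_fiberwise_of_maps_to (g := fun m => m % q) (t := Rp q)]
      · refine sum_congr rfl fun ρ hρ => ?_
        refine sum_congr ?_ fun _ _ => rfl
        ext m
        have hρlt : ρ < q := mem_range.1 (mem_filter.1 hρ).1
        have hρd : dp q ρ := (mem_filter.1 hρ).2.2
        have hcr := (Nat.chineseRemainder hcoq r ρ).2
        simp only [mem_filter, mem_insert, forall_eq_or_imp]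
        rw [← Nat.modEq_and_modEq_iff_modEq_mul hcoq]
        constructor
        · rintro ⟨⟨hm, h1, h2, h3⟩, h4⟩
          refine ⟨hm, ⟨h1.trans hcr.1.symm, ?_⟩, h3⟩
          have : m ≡ ρ [MOD q] := by
            unfold Nat.ModEq
            rw [h4, Nat.mod_eq_of_lt hρlt]
          exact this.trans hcr.2.symm
        · rintro ⟨hm, ⟨h1, h2⟩, h3⟩
          have h4 : m ≡ ρ [MOD q] := h2.trans hcr.2
          have h5 : m % q = ρ := by
            have : m % q = ρ % q := h4
            rw [this, Nat.mod_eq_of_lt hρlt]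
          refine ⟨⟨hm, h1.trans hcr.1, ?_, h3⟩, h5⟩
          rw [dp_per, h5]
          exact hρd
      · intro m hm
        have hm' := (mem_filter.1 hm).2
        have h1 := hm'.2 q (mem_insert_self _ _)
        have h2 := hA m (mem_filter.1 hm).1 q (mem_insert_self _ _)
        unfold Rp
        rw [mem_filter, mem_range]
        refine ⟨Nat.mod_lt _ hqp.pos, ?_, (dp_per q m).1 h1⟩
        unfold Nat.Coprime at h2 ⊢
        rw [← h2]
        exact (Nat.mod_modEq m q).gcd_eq
    rw [hsplit, prod_insert hq, prod_insert hq]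
    have hmain : X / D.totient * (gp q * ∏ q ∈ S, gp q) =
        ∑ ρ ∈ Rp q, X / (D * q).totient * ∏ q ∈ S, gp q := by
      rw [sum_const, nsmul_eq_mul]
      have hq0 : (q.totient : ℝ) ≠ 0 := by exact_mod_cast (Nat.totient_pos.2 hqp.pos).ne'
      have hD0 : (D.totient : ℝ) ≠ 0 := by exact_mod_cast (Nat.totient_pos.2 hD).ne'
      have hdq : gp q = ((Rp q).card : ℝ) / q.totient := rfl
      generalize ∏ q ∈ S, gp q = P
      rw [hdq]
      generalize ((Rp q).card : ℝ) = c
      rw [Nat.totient_mul hcoq, Nat.cast_mul]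
      field_simp
    have herr : ((Rp q).card : ℝ) * (∏ q ∈ S, ((Rp q).card : ℝ)) * ε =
        ∑ ρ ∈ Rp q, (∏ q ∈ S, ((Rp q).card : ℝ)) * ε := by
      rw [sum_const, nsmul_eq_mul, mul_assoc]
    rw [hmain, herr, ← sum_sub_distrib]
    refine (abs_sum_le_sum_abs _ _).trans (sum_le_sum fun ρ hρ => ?_)
    have hcr := (Nat.chineseRemainder hcoq r ρ).2
    have hρc : ρ.Coprime q := (mem_filter.1 hρ).2.1
    refine ih hSp hAS (D * q) hDq hcoS _ ?_ ?_
    · refine Nat.Coprime.mul_right ?_ ?_
      · unfold Nat.Coprime at hr ⊢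
        rw [← hr]
        exact hcr.1.gcd_eq
      · unfold Nat.Coprime at hρc ⊢
        rw [← hρc]
        exact hcr.2.gcd_eq
    · intro c hc
      have h1 := h c
      rw [prod_insert hq, ← mul_assoc] at h1
      exact h1 hc

theorem rem_le (A : Finset ℕ) (w : ℕ → ℝ) (X ε : ℝ) (S : Finset ℕ) (hS : ∀ q ∈ S, q.Prime)
    (hA : ∀ m ∈ A, ∀ q ∈ S, m.Coprime q)
    (h : ∀ c : ℕ, c.Coprime (∏ q ∈ S, q) →
      |∑ m ∈ A.filter (fun m => m ≡ c [MOD (∏ q ∈ S, q)]), w m - X / (∏ q ∈ S, q).totient| ≤ ε) :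
    rem A w dp gp X S ≤ 3 ^ S.card * ε := by
  have h1 := rem_classes A w X ε S hS hA 1 one_pos (fun q _ => Nat.coprime_one_left q) 0
    (Nat.coprime_one_right 0) (by
      intro c hc
      rw [one_mul] at hc ⊢
      exact h c hc)
  have h2 : A.filter (fun m => m ≡ 0 [MOD 1] ∧ ∀ q ∈ S, dp q m) =
      A.filter (fun m => ∀ q ∈ S, dp q m) := by
    refine filter_congr fun m _ => ?_
    simp [Nat.modEq_one]
  rw [h2, Nat.totient_one, Nat.cast_one, div_one] at h1
  unfold rem
  refine h1.trans ?_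
  have hε : 0 ≤ ε := by
    have := h 1 (Nat.coprime_one_left _)
    exact (abs_nonneg _).trans this
  refine mul_le_mul_of_nonneg_right ?_ hε
  calc ∏ q ∈ S, ((Rp q).card : ℝ) ≤ ∏ _q ∈ S, (3 : ℝ) :=
        prod_le_prod (fun _ _ => Nat.cast_nonneg _)
          fun q hq => by exact_mod_cast card_Rp_le (hS q hq)
    _ = 3 ^ S.card := by rw [prod_const]

end

end Pool.Agent.Work.MP_40574a_nt.PA
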