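import Mathlib
import Pool.Agent.Work.MP_40574a_nt.PA.Few
import Pool.Agent.Work.MP_40574a_nt.PA.Level
import Pool.Agent.Work.MP_40574a_nt.PA.Rem
import Pool.Agent.Work.Shared.PNT.Tauber

/-! # Module Asm: primes `p` in `(√(29n), √(30n)]` with `(p-2)(p+4)(p+10)` almost prime

`y = Nat.sqrt (29 n)`, `x = Nat.sqrt (30 n)`, `L = log y`, `A = primes of (y,x]`, `w = log`,
`X = ∑ log p`. Remainders: `rem_le` with the class `c e` (coprime to `e`) maximising the error, so
`rem ≤ 3^ω(e) Er y x e (c e)`, and `level 5`: total `≤ C x/(log x)^5`. `X ≥ 0.09 √n` by the prime number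
theorem. `∑_{A, sifted} log p · Wt ≤ log x · (#T + #bad)`.
-/

namespace Pool.Agent.Work.MP_40574a_nt.PA

open Finset BrunHooley Mertens

noncomputable section

/-- the worst class -/
lemma exists_class (y x e : ℕ) (he : 1 ≤ e) : ∃ c : ℕ, c.Coprime e ∧
    ∀ c' : ℕ, c'.Coprime e → Er y x e c' ≤ Er y x e c := by
  classical
  have hne : ((range e).filter (fun c => c.Coprime e)).Nonempty := by
    refine ⟨1 % e, mem_filter.2 ⟨mem_range.2 (Nat.mod_lt _ he), ?_⟩⟩
    rw [Nat.coprime_iff_gcd_eq_one, ← Nat.gcd_rec, Nat.gcd_one_right]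
  obtain ⟨c, hc, hmax⟩ := exists_max_image _ (fun c => Er y x e c) hne
  refine ⟨c, (mem_filter.1 hc).2, fun c' hc' => ?_⟩
  have h1 : Er y x e c' = Er y x e (c' % e) := by
    unfold Er
    have : ∀ p : ℕ, p ≡ c' [MOD e] ↔ p ≡ c' % e [MOD e] := fun p =>
      ⟨fun h => h.trans (Nat.mod_modEq _ _).symm, fun h => h.trans (Nat.mod_modEq _ _)⟩
    simp_rw [this]
  rw [h1]
  refine hmax _ (mem_filter.2 ⟨mem_range.2 (Nat.mod_lt _ he), ?_⟩)
  rw [Nat.coprime_iff_gcd_eq_one] at hc' ⊢
  rw [← Nat.gcd_rec, Nat.gcd_comm]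
  exact hc'

/-- the sum of the remainders -/
lemma rem_total (A : ℕ) : ∃ C : ℝ, 0 < C ∧ ∀ (y x : ℕ), 3 ≤ y → y ≤ x → x ≤ 2 * y →
    ∑ e ∈ (Icc 1 ⌊Real.exp (0.45 * Real.log y)⌋₊).filter Squarefree,
      rem ((Ioc y x).filter Nat.Prime) (fun p => Real.log p) dp gp
        (∑ p ∈ (Ioc y x).filter Nat.Prime, Real.log p) e.primeFactors ≤
      C * x / (Real.log x) ^ A := by
  classical
  obtain ⟨C, hC, h⟩ := level A
  refine ⟨C, hC, fun y x hy hyx hx2 => ?_⟩
  have hy0 : (0 : ℝ) < y := by exact_mod_cast (show 0 < y by omega)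
  have hy1 : (1 : ℝ) ≤ y := by exact_mod_cast (show 1 ≤ y by omega)
  set Q := ⌊Real.exp (0.45 * Real.log y)⌋₊ with hQ
  have hQle : (Q : ℝ) ≤ (y : ℝ) ^ (9 / 20 : ℝ) := by
    refine (Nat.floor_le (Real.exp_pos _).le).trans (le_of_eq ?_)
    rw [Real.rpow_def_of_pos hy0]
    congr 1
    ring
  have hQy : (Q : ℝ) ≤ y := by
    refine hQle.trans ?_
    calc (y : ℝ) ^ (9 / 20 : ℝ) ≤ (y : ℝ) ^ (1 : ℝ) :=
          Real.rpow_le_rpow_of_exponent_le hy1 (by norm_num)
      _ = y := Real.rpow_one _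
  have hQy' : Q ≤ y := by exact_mod_cast hQy
  set c : ℕ → ℕ := fun e => if he : 1 ≤ e then (exists_class y x e he).choose else 1 with hc
  have hcs : ∀ e ∈ Icc 1 Q, (c e).Coprime e ∧
      ∀ c' : ℕ, c'.Coprime e → Er y x e c' ≤ Er y x e (c e) := by
    intro e he
    have he1 := (mem_Icc.1 he).1
    simp only [hc, dif_pos he1]
    exact (exists_class y x e he1).choose_spec
  refine le_trans (sum_le_sum fun e he => ?_) (h y x Q c hy hyx hx2 hQle fun e he => (hcs e he).1)
  rw [mem_filter] at he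
  obtain ⟨he1, hesq⟩ := he
  have he2 := mem_Icc.1 he1
  have hprod : ∏ q ∈ e.primeFactors, q = e := Nat.prod_primeFactors_of_squarefree hesq
  refine rem_le _ _ _ (Er y x e (c e)) e.primeFactors
    (fun q hq => Nat.prime_of_mem_primeFactors hq) ?_ ?_
  · intro m hm q hq
    rw [mem_filter, mem_Ioc] at hm
    have hqp := Nat.prime_of_mem_primeFactors hq
    rw [Nat.coprime_primes hm.2 hqp]
    have h1 : q ≤ e := Nat.le_of_mem_primeFactors hq
    omega
  · rw [hprod]
    intro c' hc'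
    exact (hcs e he1).2 c' hc'

/-- many primes in the window -/
lemma theta_window : ∃ n₀ : ℕ, ∀ n : ℕ, n₀ ≤ n →
    0.09 * Real.sqrt n ≤ ∑ p ∈ (Ioc (Nat.sqrt (29 * n)) (Nat.sqrt (30 * n))).filter Nat.Prime,
      Real.log p := by
  obtain ⟨C, hC, hθ⟩ := Pool.Agent.Work.Shared.PNT.theta_sub_self_le 1
  have h29 : Real.sqrt 29 ≤ 5.3852 := by
    rw [Real.sqrt_le_left (by norm_num)]; norm_num
  have h30 : (5.4772 : ℝ) ≤ Real.sqrt 30 := Real.le_sqrt_of_sq_le (by norm_num)
  have h29' : (5 : ℝ) ≤ Real.sqrt 29 := Real.le_sqrt_of_sq_le (by norm_num)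
  have h30' : Real.sqrt 30 ≤ 6 := by
    rw [Real.sqrt_le_left (by norm_num)]; norm_num
  set tt := max 8000 (100000 * C) with htt
  refine ⟨⌈Real.exp tt⌉₊, fun n hn => ?_⟩
  have hnexp : Real.exp tt ≤ n := (Nat.le_ceil _).trans (by exact_mod_cast hn)
  have hn0 : (0 : ℝ) < n := (Real.exp_pos _).trans_le hnexp
  set t := Real.log n with ht
  have hett : tt ≤ t := by rw [ht, Real.le_log_iff_exp_le hn0]; exact hnexp
  have ht8 : 8000 ≤ t := (le_max_left _ _).trans hett
  have htC : 100000 * C ≤ t := (le_max_right _ _).trans hett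
  set s := Real.sqrt n with hs
  have hspos : 0 < s := Real.sqrt_pos.2 hn0
  have hslog : Real.log s = t / 2 := by rw [hs, Real.log_sqrt hn0.le]
  have hs1 : 4000 ≤ s := by
    have h1 : Real.log s + 1 ≤ s := by
      have := Real.add_one_le_exp (Real.log s)
      rwa [Real.exp_log hspos] at this
    linarith
  set X := Real.sqrt 29 * s with hX
  set Y := Real.sqrt 30 * s with hY
  have hXY : X ≤ Y := by rw [hX, hY]; nlinarith
  have hX2 : 2 ≤ X := by nlinarith
  have hY2 : 2 ≤ Y := hX2.trans hXY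
  have hXs : s ≤ X := by nlinarith
  have hYs : s ≤ Y := by nlinarith
  have hX6 : X ≤ 6 * s := by nlinarith
  have hY6 : Y ≤ 6 * s := by nlinarith
  have hfX : ⌊X⌋₊ = Nat.sqrt (29 * n) := by
    have h1 : X = Real.sqrt ((29 * n : ℕ) : ℝ) := by
      push_cast
      rw [Real.sqrt_mul (by norm_num)]
    rw [h1]
    exact Real.nat_floor_real_sqrt_eq_nat_sqrt
  have hfY : ⌊Y⌋₊ = Nat.sqrt (30 * n) := by
    have h1 : Y = Real.sqrt ((30 * n : ℕ) : ℝ) := by
      push_cast
      rw [Real.sqrt_mul (by norm_num)]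
    rw [h1]
    exact Real.nat_floor_real_sqrt_eq_nat_sqrt
  rw [← hfX, ← hfY]
  have hdiff : Chebyshev.theta Y - Chebyshev.theta X =
      ∑ p ∈ (Ioc ⌊X⌋₊ ⌊Y⌋₊).filter Nat.Prime, Real.log p := by
    rw [Chebyshev.theta_eq_sum_Icc, Chebyshev.theta_eq_sum_Icc]
    have h1 : (Icc 0 ⌊Y⌋₊).filter Nat.Prime =
        (Icc 0 ⌊X⌋₊).filter Nat.Prime ∪ (Ioc ⌊X⌋₊ ⌊Y⌋₊).filter Nat.Prime := by
      have hfl := Nat.floor_le_floor hXY
      ext p
      simp only [mem_filter, mem_Icc, mem_union, mem_Ioc]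
      constructor
      · rintro ⟨⟨_, h⟩, hp⟩
        rcases le_or_gt p ⌊X⌋₊ with h' | h'
        · exact Or.inl ⟨⟨Nat.zero_le _, h'⟩, hp⟩
        · exact Or.inr ⟨⟨h', h⟩, hp⟩
      · rintro (⟨⟨_, h⟩, hp⟩ | ⟨⟨_, h⟩, hp⟩)
        · exact ⟨⟨Nat.zero_le _, by omega⟩, hp⟩
        · exact ⟨⟨Nat.zero_le _, h⟩, hp⟩
    rw [h1, sum_union]
    · ring
    · rw [disjoint_left]
      intro p hp hp'
      simp only [mem_filter, mem_Icc, mem_Ioc] at hp hp'
      omega
  rw [← hdiff]
  have hbX := (abs_le.1 (hθ X hX2)).2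
  have hbY := (abs_le.1 (hθ Y hY2)).1
  rw [Real.rpow_one] at hbX hbY
  have hlX : t / 2 ≤ Real.log X := by rw [← hslog]; exact Real.log_le_log hspos hXs
  have hlY : t / 2 ≤ Real.log Y := by rw [← hslog]; exact Real.log_le_log hspos hYs
  have herr : ∀ Z : ℝ, Z ≤ 6 * s → 0 ≤ Z → t / 2 ≤ Real.log Z →
      C * Z / Real.log Z ≤ 0.0002 * s := by
    intro Z hZ hZ0 hlZ
    have h1 : 0 < Real.log Z := by linarith
    rw [div_le_iff₀ h1]
    calc C * Z ≤ C * (6 * s) := by gcongr
      _ = (6 * C) * s := by ring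
      _ ≤ (0.0002 * (t / 2)) * s := by
          have : 6 * C ≤ 0.0002 * (t / 2) := by linarith
          gcongr
      _ ≤ (0.0002 * Real.log Z) * s := by gcongr
      _ = 0.0002 * s * Real.log Z := by ring
  have e1 := herr X hX6 (by linarith) hlX
  have e2 := herr Y hY6 (by linarith) hlY
  have hYX : 0.092 * s ≤ Y - X := by
    rw [hX, hY, ← sub_mul]
    have : (0.092 : ℝ) ≤ Real.sqrt 30 - Real.sqrt 29 := by linarith
    gcongr
  linarith

theorem pa_main : ∃ c : ℝ, 0 < c ∧ ∃ n₀ : ℕ, ∀ n : ℕ, n₀ ≤ n → ∃ T : Finset ℕ,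
    c * Real.sqrt n / (Real.log n) ^ 4 ≤ (T.card : ℝ) ∧ ∀ p ∈ T,
      p.Prime ∧ 5 < p ∧ 29 * n ≤ p ^ 2 ∧ p ^ 2 ≤ 30 * n ∧ Squarefree (G3 p) ∧
        ArithmeticFunction.cardFactors (G3 p) ≤ 16 ∧
        ∀ q : ℕ, q.Prime → q ∣ G3 p → n < q ^ 194 := by
  classical
  obtain ⟨c, L1, hc, hL1, hw⟩ := weighted
  obtain ⟨C2, hC2, hrem⟩ := rem_total 5
  obtain ⟨L3, hL3, hfew⟩ := few_factors3
  obtain ⟨C4, z4, hC4, hbad⟩ := card_bad3
  obtain ⟨n5, hθ⟩ := theta_window
  set ε : ℝ := 0.001 * c / C4 with hε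
  have hεpos : 0 < ε := by positivity
  have hlo := (isLittleO_pow_exp_pos_mul_atTop 4 (show (0 : ℝ) < 0.01 by norm_num)).bound hεpos
  obtain ⟨L6, hL6⟩ := Filter.eventually_atTop.1 hlo
  set tt : ℝ := max 1000 (max L1 (max L3 (max L6 (max (97 * Real.log (max z4 1))
    (1000 * C2 / c))))) with htt
  refine ⟨0.001 * c, by positivity, max n5 ⌈Real.exp (2 * tt)⌉₊, fun n hn => ?_⟩
  have hn5 : n5 ≤ n := (le_max_left _ _).trans hn
  have hnexp : Real.exp (2 * tt) ≤ n := (Nat.le_ceil _).trans (by exact_mod_cast (le_max_right _ _).trans hn)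
  have hn0 : (0 : ℝ) < n := (Real.exp_pos _).trans_le hnexp
  set s := Real.sqrt n with hs
  have hspos : 0 < s := Real.sqrt_pos.2 hn0
  have hs2 : s ^ 2 = n := Real.sq_sqrt hn0.le
  have hexps : Real.exp tt ≤ s := by
    rw [hs]
    apply Real.le_sqrt_of_sq_le
    rw [← Real.exp_nat_mul]
    push_cast
    exact hnexp
  set y := Nat.sqrt (29 * n) with hy
  set x := Nat.sqrt (30 * n) with hx
  have hyx : y ≤ x := Nat.sqrt_le_sqrt (by omega)
  have h29 : Real.sqrt 29 ≤ 5.3852 := by
    rw [Real.sqrt_le_left (by norm_num)]; norm_num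
  have h29' : (5.385 : ℝ) ≤ Real.sqrt 29 := Real.le_sqrt_of_sq_le (by norm_num)
  have h30' : Real.sqrt 30 ≤ 5.4773 := by
    rw [Real.sqrt_le_left (by norm_num)]; norm_num
  have hsy : Real.sqrt ((29 * n : ℕ) : ℝ) = Real.sqrt 29 * s := by
    push_cast
    rw [Real.sqrt_mul (by norm_num)]
  have hsx : Real.sqrt ((30 * n : ℕ) : ℝ) = Real.sqrt 30 * s := by
    push_cast
    rw [Real.sqrt_mul (by norm_num)]
  have hyle : (y : ℝ) ≤ 5.3852 * s := by
    have h1 := Real.nat_sqrt_le_real_sqrt (a := 29 * n)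
    rw [hsy] at h1
    have h2 := mul_le_mul_of_nonneg_right h29 hspos.le
    linarith
  have hxle : (x : ℝ) ≤ 5.4773 * s := by
    have h1 := Real.nat_sqrt_le_real_sqrt (a := 30 * n)
    rw [hsx] at h1
    have h2 := mul_le_mul_of_nonneg_right h30' hspos.le
    linarith
  have htt1000 : 1000 ≤ tt := le_max_left _ _
  have hsbig : 1001 ≤ s := by
    have := Real.add_one_le_exp tt
    linarith
  have hyge : 5.38 * s ≤ (y : ℝ) := by
    have h1 := Real.real_sqrt_le_nat_sqrt_succ (a := 29 * n)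
    rw [hsy] at h1
    have h2 := mul_le_mul_of_nonneg_right h29' hspos.le
    push_cast at h1
    linarith
  have hy0 : (0 : ℝ) < y := by linarith
  have hy1000 : (1000 : ℝ) ≤ y := by linarith
  have hy3 : 3 ≤ y := by
    have : (3 : ℝ) ≤ y := by linarith
    exact_mod_cast this
  have hx2y : x ≤ 2 * y := by
    have : (x : ℝ) ≤ 2 * y := by linarith
    exact_mod_cast this
  set L := Real.log y with hL
  have hyexp : (y : ℝ) = Real.exp L := (Real.exp_log hy0).symm
  have hLtt : tt ≤ L := by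
    rw [hL, Real.le_log_iff_exp_le hy0]
    linarith
  have hm1 := max_le_iff.1 hLtt
  have hm2 := max_le_iff.1 hm1.2
  have hm3 := max_le_iff.1 hm2.2
  have hm4 := max_le_iff.1 hm3.2
  have hm5 := max_le_iff.1 hm4.2
  have hL1000 : 1000 ≤ L := hm1.1
  have hLpos : 0 < L := by linarith
  set z := Real.exp (1 / 97 * L) with hz
  have hz4 : z4 ≤ z := by
    refine (le_max_left z4 1).trans ?_
    rw [hz, ← Real.log_le_iff_le_exp (by positivity)]
    linarith [hm5.1]
  have hxL : (x : ℝ) + 10 ≤ Real.exp (L + 0.1) := by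
    rw [Real.exp_add, ← hyexp]
    have h1 : (1.1 : ℝ) ≤ Real.exp 0.1 := by
      have := Real.add_one_le_exp (0.1 : ℝ)
      linarith
    nlinarith
  have hlogx : Real.log x ≤ 2 * L := by
    have hx0 : (0 : ℝ) < x := by
      have : (y : ℝ) ≤ x := by exact_mod_cast hyx
      linarith
    rw [Real.log_le_iff_le_exp hx0]
    refine le_trans ?_ (Real.exp_le_exp.2 (show L + 0.1 ≤ 2 * L by linarith))
    linarith
  have hlogx' : L ≤ Real.log x := by
    rw [hL]
    exact Real.log_le_log hy0 (by exact_mod_cast hyx)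
  set A := (Ioc y x).filter Nat.Prime with hA
  set X := ∑ p ∈ A, Real.log p with hX
  have hX1 : 0.09 * s ≤ X := hθ n hn5
  have hX0 : 0 ≤ X := by linarith [mul_nonneg (by norm_num : (0:ℝ) ≤ 0.09) hspos.le]
  have hw0 : ∀ m ∈ A, (0 : ℝ) ≤ (fun p : ℕ => Real.log p) m := fun m _ => Real.log_natCast_nonneg m
  have hsum := hw L hm2.1 A (fun p => Real.log p) X hX0 hw0
  have hR := hrem y x hy3 hyx hx2y
  rw [← hL, ← hA, ← hX] at hR
  set R := ∑ e ∈ (Icc 1 ⌊Real.exp (0.45 * L)⌋₊).filter Squarefree,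
      rem A (fun p => Real.log p) dp gp X e.primeFactors with hRdef
  -- the remainders are small
  have hRle : 2 * R ≤ 0.02 * c * s / L ^ 3 := by
    have h1 : R ≤ C2 * (5.4773 * s) / L ^ 5 := by
      refine hR.trans ?_
      gcongr
    have h2 : 1000 * C2 / c ≤ L := hm5.2
    have h3 : 1000 * C2 ≤ c * L := by
      rwa [div_le_iff₀ hc, mul_comm L c] at h2
    have h4 : 2 * (C2 * (5.4773 * s) / L ^ 5) ≤ 0.02 * c * s / L ^ 3 := by
      rw [← mul_div_assoc, div_le_div_iff₀ (by positivity) (by positivity)]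
      have h5 : 2 * (C2 * (5.4773 * s)) * L ^ 3 ≤ (11 * C2) * s * L ^ 3 := by
        have : 0 ≤ C2 * s * L ^ 3 := by positivity
        nlinarith
      have h6 : 11 * C2 ≤ 0.02 * c * L ^ 2 := by
        have : c * L ≤ c * L * L := by
          have : 0 ≤ c * L := by positivity
          nlinarith
        nlinarith
      calc 2 * (C2 * (5.4773 * s)) * L ^ 3 ≤ (11 * C2) * s * L ^ 3 := h5
        _ ≤ (0.02 * c * L ^ 2) * s * L ^ 3 := by gcongr
        _ = 0.02 * c * s * L ^ 5 := by ring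
    linarith
  -- the good set
  set Bd := (Ioc y x).filter (fun m => ∃ q : ℕ, q.Prime ∧ z < q ∧ q * q ∣ G3 m) with hBd
  set T := (A.filter (fun m => Sf z m)).filter (fun m => m ∉ Bd ∧ 0 < Wt L m) with hT
  refine ⟨T, ?_, ?_⟩
  · have h1 : ∑ m ∈ A.filter (fun m => Sf z m), Real.log m * Wt L m ≤
        (2 * L) * ((T.card : ℝ) + (Bd.card : ℝ)) := by
      calc ∑ m ∈ A.filter (fun m => Sf z m), Real.log m * Wt L m
          ≤ ∑ m ∈ A.filter (fun m => Sf z m),
              ((if m ∉ Bd ∧ 0 < Wt L m then 2 * L else 0) + (if m ∈ Bd then 2 * L else 0)) := by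
            refine sum_le_sum fun m hm => ?_
            have hmA := (mem_filter.1 hm).1
            rw [hA, mem_filter, mem_Ioc] at hmA
            have hm0 : (0 : ℝ) < m := by exact_mod_cast hmA.2.pos
            have hlm : Real.log m ≤ 2 * L := by
              refine le_trans (Real.log_le_log hm0 ?_) hlogx
              exact_mod_cast hmA.1.2
            have hlm0 : 0 ≤ Real.log m := Real.log_natCast_nonneg m
            have h2 := Wt_le_one hLpos m
            have h3 : Real.log m * Wt L m ≤ 2 * L := by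
              calc Real.log m * Wt L m ≤ Real.log m * 1 := mul_le_mul_of_nonneg_left h2 hlm0
                _ ≤ 2 * L := by linarith
            by_cases hb : m ∈ Bd
            · simp only [hb, not_true_eq_false, false_and, if_false, if_true, zero_add]
              exact h3
            · by_cases hpos : 0 < Wt L m
              · simp only [hb, hpos, not_false_eq_true, true_and, if_true, if_false, add_zero]
                exact h3
              · simp only [hb, hpos, and_false, if_false, add_zero]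
                exact mul_nonpos_of_nonneg_of_nonpos hlm0 (not_lt.1 hpos)
        _ = (2 * L) * ((T.card : ℝ) +
              (((A.filter (fun m => Sf z m)).filter (fun m => m ∈ Bd)).card : ℝ)) := by
            rw [sum_add_distrib, ← sum_filter, ← sum_filter, sum_const, sum_const, nsmul_eq_mul,
              nsmul_eq_mul]
            ring
        _ ≤ _ := by
            have h5 : ((A.filter (fun m => Sf z m)).filter (fun m => m ∈ Bd)).card ≤ Bd.card :=
              card_le_card fun m hm => (mem_filter.1 hm).2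
            have h6 : (((A.filter (fun m => Sf z m)).filter (fun m => m ∈ Bd)).card : ℝ) ≤
                Bd.card := by exact_mod_cast h5
            gcongr
    have h2 : (Bd.card : ℝ) ≤ C4 * x / z + C4 * Real.sqrt x := hbad z y x hz4 hy3 hyx
    have hlo := hL6 L hm4.1
    rw [Real.norm_of_nonneg (by positivity), Real.norm_of_nonneg (Real.exp_pos _).le] at hlo
    have hL4 : 0 < L ^ 4 := by positivity
    -- bad elements
    have h3 : C4 * x / z ≤ 0.006 * c * s / L ^ 4 := by
      have hzpos : 0 < z := Real.exp_pos _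
      rw [div_le_div_iff₀ hzpos hL4]
      have h4 : L ^ 4 ≤ ε * z := by
        refine hlo.trans ?_
        have : Real.exp (0.01 * L) ≤ z := by
          rw [hz, Real.exp_le_exp]; nlinarith
        gcongr
      calc C4 * x * L ^ 4 ≤ C4 * (5.4773 * s) * (ε * z) := by gcongr
        _ = 5.4773 * (C4 * ε) * s * z := by ring
        _ = 5.4773 * (0.001 * c) * s * z := by
            rw [hε]; field_simp
        _ ≤ 0.006 * c * s * z := by
            have : 0 ≤ c * s * z := by positivity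
            nlinarith
    have h4 : C4 * Real.sqrt x ≤ 0.006 * c * s / L ^ 4 := by
      rw [le_div_iff₀ hL4]
      have h5 : Real.sqrt x ≤ 2.5 * Real.sqrt s := by
        rw [Real.sqrt_le_left (by positivity), mul_pow, Real.sq_sqrt hspos.le]
        linarith
      have h6 : Real.exp (0.01 * L) ≤ 2.4 * Real.sqrt s := by
        have h7 : Real.exp (0.01 * L) ≤ Real.exp (L / 2) := by
          rw [Real.exp_le_exp]; linarith
        have h8 : Real.exp (L / 2) ≤ 2.4 * Real.sqrt s := by
          have h9 : Real.exp (L / 2) = Real.sqrt y := by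
            rw [hyexp, Real.sqrt_eq_rpow, ← Real.exp_mul]
            congr 1; ring
          rw [h9, Real.sqrt_le_left (by positivity), mul_pow, Real.sq_sqrt hspos.le]
          linarith
        linarith
      have hss : Real.sqrt s * Real.sqrt s = s := Real.mul_self_sqrt hspos.le
      calc C4 * Real.sqrt x * L ^ 4 ≤ C4 * (2.5 * Real.sqrt s) * (ε * (2.4 * Real.sqrt s)) := by
            have := hlo.trans (mul_le_mul_of_nonneg_left h6 hεpos.le)
            gcongr
        _ = 6 * (C4 * ε) * (Real.sqrt s * Real.sqrt s) := by ring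
        _ = 6 * (0.001 * c) * s := by
            rw [hss, hε]; field_simp
        _ = 0.006 * c * s := by ring
    -- conclusion
    have h5 : c * X / L ^ 3 ≥ 0.09 * c * s / L ^ 3 := by
      have : 0.09 * c * s ≤ c * X := by nlinarith
      gcongr
    have h6 : 0.07 * c * s / L ^ 3 ≤ (2 * L) * ((T.card : ℝ) + (Bd.card : ℝ)) := by
      have h7 : 0.09 * c * s / L ^ 3 - 0.02 * c * s / L ^ 3 = 0.07 * c * s / L ^ 3 := by ring
      linarith
    have h7 : 0.035 * c * s / L ^ 4 ≤ (T.card : ℝ) + (Bd.card : ℝ) := by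
      rw [div_le_iff₀ hL4]
      rw [div_le_iff₀ (by positivity)] at h6
      have h8 : (2 * L) * ((T.card : ℝ) + (Bd.card : ℝ)) * L ^ 3 =
          2 * (((T.card : ℝ) + (Bd.card : ℝ)) * L ^ 4) := by ring
      rw [h8] at h6
      linarith
    have h8 : 0.001 * c * s / L ^ 4 ≤ (T.card : ℝ) := by
      have h9 : 0.035 * c * s / L ^ 4 - 0.006 * c * s / L ^ 4 - 0.006 * c * s / L ^ 4 =
          0.023 * (c * s / L ^ 4) := by ring
      have h10 : 0.001 * c * s / L ^ 4 = 0.001 * (c * s / L ^ 4) := by ring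
      have h11 : 0 ≤ c * s / L ^ 4 := by positivity
      rw [h10]
      linarith
    refine le_trans ?_ h8
    have hLn : L ≤ Real.log n := by
      rw [hL]
      refine Real.log_le_log hy0 ?_
      have : 5.3852 * s ≤ s ^ 2 := by nlinarith
      linarith
    have : L ^ 4 ≤ (Real.log n) ^ 4 := by gcongr
    exact div_le_div_of_nonneg_left (by positivity) hL4 this
  · intro p hp
    rw [hT, mem_filter, mem_filter, hA, mem_filter, mem_Ioc] at hp
    obtain ⟨⟨⟨⟨hpy, hpx⟩, hpp⟩, hsift⟩, hpB, hpW⟩ := hp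
    have hp3 : 3 ≤ p := by omega
    have hnb : ∀ q : ℕ, q.Prime → Real.exp (1 / 97 * L) < q → ¬ q * q ∣ G3 p := by
      intro q hq hzq hqd
      apply hpB
      rw [hBd, mem_filter, mem_Ioc]
      exact ⟨⟨hpy, hpx⟩, q, hq, hzq, hqd⟩
    have hple : (p : ℝ) + 10 ≤ Real.exp (L + 0.1) := by
      have : (p : ℝ) ≤ x := by exact_mod_cast hpx
      linarith
    obtain ⟨hf1, hf2, hf3⟩ := hfew L hm3.1 p hp3 hple hsift hnb hpW
    refine ⟨hpp, ?_, ?_, ?_, hf1, hf2, ?_⟩
    · have : (5 : ℝ) < p := by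
        have : (y : ℝ) < p := by exact_mod_cast hpy
        linarith
      exact_mod_cast this
    · have h2 := Nat.sqrt_lt'.1 hpy
      exact h2.le
    · exact Nat.le_sqrt'.1 hpx
    · intro q hq hqd
      have h1 := hf3 q hq hqd
      have hq0 : (0 : ℝ) < q := by exact_mod_cast hq.pos
      have h2 : 1 / 97 * L < Real.log q := by
        rw [Real.lt_log_iff_exp_lt hq0]
        exact h1
      have h3 : Real.log n ≤ 2 * L := by
        rw [← hs2, Real.log_pow]
        push_cast
        have : Real.log s ≤ L := by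
          rw [hL]
          exact Real.log_le_log hspos (by linarith)
        linarith
      have h4 : Real.log n < Real.log ((q : ℝ) ^ 194) := by
        rw [Real.log_pow]
        push_cast
        linarith
      have h5 : (n : ℝ) < (q : ℝ) ^ 194 := (Real.log_lt_log_iff hn0 (by positivity)).1 h4
      exact_mod_cast h5

end

end Pool.Agent.Work.MP_40574a_nt.PA
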